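import Pool.Agent.Y254.EL.Dual
import Pool.Agent.Y254.EL.Rem

/-!
# Tube doubling from the Kakeya tube inequality: one layer

For lines through separated points of one horizontal layer, the projective map
`(u, w) ↦ (1 / u, w / u)` turns the points into directions.
-/

set_option autoImplicit false

open MeasureTheory Set Metric
open scoped ENNReal NNReal

namespace Pool.Agent.Y893.TD
open Pool.Agent.Y254 (mult mult_meas lint_mult)
open Pool.Agent.Y254.EL

variable {d : ℕ}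

/-- the projective map -/
noncomputable def psi (s σ : ℝ) (b : Fin d → ℝ) (z : Pt d) : Pt d :=
  (s + σ * z.1⁻¹, b + z.1⁻¹ • z.2)

theorem psi_meas (s σ : ℝ) (b : Fin d → ℝ) : Measurable (psi s σ b) := by
  unfold psi
  have h1 : Measurable fun z : Pt d => z.1⁻¹ := measurable_fst.inv
  exact (measurable_const.add (h1.const_mul σ)).prodMk (measurable_const.add (h1.smul measurable_snd))

theorem slice_psi (s σ : ℝ) (b : Fin d → ℝ) {t : ℝ} (ht : 0 < t) (X : Set (Pt d)) :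
    volume (Prod.mk t ⁻¹' (psi s σ b ⁻¹' X)) =
      ENNReal.ofReal (t ^ d) * volume (Prod.mk (s + σ * t⁻¹) ⁻¹' X) := by
  have h1 : Prod.mk t ⁻¹' (psi s σ b ⁻¹' X) =
      (fun w : Fin d → ℝ => t⁻¹ • w) ⁻¹'
        ((fun w => b + w) ⁻¹' (Prod.mk (s + σ * t⁻¹) ⁻¹' X)) := rfl
  rw [h1, Measure.addHaar_preimage_smul volume (inv_ne_zero ht.ne'), measure_preimage_add,
    Module.finrank_fin_fun, inv_pow, inv_inv, abs_of_nonneg (by positivity)]

/-- preimage of a set, over heights in `[K⁻¹, c1⁻¹]` -/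
def pre (s σ : ℝ) (b : Fin d → ℝ) (c1 K : ℝ) (X : Set (Pt d)) : Set (Pt d) :=
  {z | z.1 ∈ Icc K⁻¹ c1⁻¹} ∩ psi s σ b ⁻¹' X

theorem pre_meas (s σ : ℝ) (b : Fin d → ℝ) (c1 K : ℝ) {X : Set (Pt d)} (hX : MeasurableSet X) :
    MeasurableSet (pre s σ b c1 K X) :=
  (measurable_fst measurableSet_Icc).inter (psi_meas s σ b hX)

theorem pre_slice (s σ : ℝ) (b : Fin d → ℝ) {c1 K : ℝ} (hK : 0 < K) (X : Set (Pt d)) (t : ℝ) :
    volume (Prod.mk t ⁻¹' (pre s σ b c1 K X)) =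
      (Icc K⁻¹ c1⁻¹).indicator
        (fun t => ENNReal.ofReal (t ^ d) * volume (Prod.mk (s + σ * t⁻¹) ⁻¹' X)) t := by
  by_cases ht : t ∈ Icc K⁻¹ c1⁻¹
  · rw [indicator_of_mem ht]
    have ht0 : 0 < t := lt_of_lt_of_le (inv_pos.mpr hK) ht.1
    rw [← slice_psi s σ b ht0 X]
    congr 1
    ext w
    simp only [pre, mem_preimage, mem_inter_iff, mem_ofPred_eq]
    exact ⟨fun h => h.2, fun h => ⟨ht, h⟩⟩
  · rw [indicator_of_notMem ht]
    have : Prod.mk t ⁻¹' (pre s σ b c1 K X) = ∅ := by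
      ext w
      simp only [pre, mem_preimage, mem_inter_iff, mem_ofPred_eq, mem_empty_iff_false, iff_false]
      exact fun h => ht h.1
    rw [this, measure_empty]

theorem pre_low {s σ : ℝ} {b : Fin d → ℝ} {c1 K κ : ℝ} (hc1 : 0 < c1) (hκ : 0 ≤ κ)
    {X : Set (Pt d)} (hX : MeasurableSet X) {α β : ℝ} (hα : c1 ≤ α) (hαβ : α + c1 ≤ β)
    (hβ : β ≤ K) (hlow : ∀ u ∈ Icc α β, ENNReal.ofReal κ ≤ volume (Prod.mk (s + σ * u) ⁻¹' X)) :
    ENNReal.ofReal (c1 / K ^ 2 * (K⁻¹ ^ d * κ)) ≤ volume (pre s σ b c1 K X) := by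
  have hα0 : 0 < α := lt_of_lt_of_le hc1 hα
  have hβ0 : 0 < β := by linarith
  have hK : 0 < K := by linarith
  rw [Measure.volume_eq_prod, Measure.prod_apply (pre_meas s σ b c1 K hX)]
  have h1 : ENNReal.ofReal (c1 / K ^ 2) ≤ volume (Icc β⁻¹ α⁻¹) := by
    rw [Real.volume_Icc]
    apply ENNReal.ofReal_le_ofReal
    have h2 : α⁻¹ - β⁻¹ = (β - α) / (α * β) := by
      field_simp
    rw [h2]
    apply div_le_div₀ (by linarith) (by linarith) (by positivity)
    nlinarith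
  calc ENNReal.ofReal (c1 / K ^ 2 * (K⁻¹ ^ d * κ))
      = ENNReal.ofReal (K⁻¹ ^ d * κ) * ENNReal.ofReal (c1 / K ^ 2) := by
        rw [← ENNReal.ofReal_mul (by positivity)]
        congr 1
        ring
    _ ≤ ENNReal.ofReal (K⁻¹ ^ d * κ) * volume (Icc β⁻¹ α⁻¹) := by gcongr
    _ = ∫⁻ _ in Icc β⁻¹ α⁻¹, ENNReal.ofReal (K⁻¹ ^ d * κ) := by
        rw [setLIntegral_const]
    _ ≤ ∫⁻ t in Icc β⁻¹ α⁻¹, volume (Prod.mk t ⁻¹' (pre s σ b c1 K X)) := by
        apply setLIntegral_mono' measurableSet_Icc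
        intro t ht
        have ht0 : 0 < t := lt_of_lt_of_le (inv_pos.mpr hβ0) ht.1
        have ht1 : K⁻¹ ≤ t := (inv_anti₀ hβ0 hβ).trans ht.1
        have ht2 : t ≤ c1⁻¹ := ht.2.trans (inv_anti₀ hc1 hα)
        rw [pre_slice s σ b hK, indicator_of_mem (show t ∈ Icc K⁻¹ c1⁻¹ from ⟨ht1, ht2⟩),
          ENNReal.ofReal_mul (by positivity)]
        have h3 : t⁻¹ ∈ Icc α β := by
          constructor
          · have := inv_anti₀ ht0 ht.2
            rwa [inv_inv] at this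
          · have := inv_anti₀ (inv_pos.mpr hβ0) ht.1
            rwa [inv_inv] at this
        have h4 := hlow _ h3
        have h5 : ENNReal.ofReal (K⁻¹ ^ d) ≤ ENNReal.ofReal (t ^ d) := by
          apply ENNReal.ofReal_le_ofReal
          gcongr
        exact mul_le_mul' h5 h4
    _ ≤ _ := setLIntegral_le_lintegral _ _

theorem lint_aff {s σ : ℝ} (hσ : σ = 1 ∨ σ = -1) {g : ℝ → ℝ≥0∞} (hg : Measurable g) :
    ∫⁻ u, g (s + σ * u) = ∫⁻ u, g u := by
  rcases hσ with rfl | rfl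
  · simp only [one_mul]
    exact lintegral_add_left_eq_self g s
  · have h1 : ∫⁻ u, g (s + u) = ∫⁻ u, g u := lintegral_add_left_eq_self g s
    rw [← h1]
    have h2 := (Measure.measurePreserving_neg (volume : Measure ℝ)).lintegral_comp
      (f := fun u => g (s + u)) (hg.comp (measurable_const_add s))
    rw [← h2]
    refine lintegral_congr fun u => ?_
    congr 1
    ring

theorem pre_up {s σ : ℝ} (hσ : σ = 1 ∨ σ = -1) {b : Fin d → ℝ} {c1 K : ℝ} (hc1 : 0 < c1)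
    (hK : 0 < K) {X : Set (Pt d)} (hX : MeasurableSet X) :
    volume (pre s σ b c1 K X) ≤ ENNReal.ofReal (c1⁻¹ ^ (d + 2)) * volume X := by
  rw [Measure.volume_eq_prod, Measure.prod_apply (pre_meas s σ b c1 K hX),
    Measure.prod_apply hX]
  set g : ℝ → ℝ≥0∞ := fun u => volume (Prod.mk u ⁻¹' X) with hg
  have hgm : Measurable g := measurable_measure_prodMk_left hX
  simp only [pre_slice s σ b hK]
  rw [lintegral_indicator measurableSet_Icc]
  have key := lintegral_image_eq_lintegral_abs_deriv_mul (s := Icc K⁻¹ c1⁻¹) (f := fun t => t⁻¹)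
    (f' := fun t => -(t ^ 2)⁻¹) measurableSet_Icc (fun t ht =>
      (hasDerivAt_inv (lt_of_lt_of_le (inv_pos.mpr hK) ht.1).ne').hasDerivWithinAt)
    (fun x _ y _ h => inv_injective h) (fun u => g (s + σ * u))
  calc ∫⁻ t in Icc K⁻¹ c1⁻¹, ENNReal.ofReal (t ^ d) * g (s + σ * t⁻¹)
      ≤ ∫⁻ t in Icc K⁻¹ c1⁻¹, ENNReal.ofReal (c1⁻¹ ^ (d + 2)) *
          (ENNReal.ofReal |-(t ^ 2)⁻¹| * g (s + σ * t⁻¹)) := by
        apply setLIntegral_mono' measurableSet_Icc
        intro t ht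
        have ht0 : 0 < t := lt_of_lt_of_le (inv_pos.mpr hK) ht.1
        rw [← mul_assoc, ← ENNReal.ofReal_mul (by positivity)]
        gcongr
        rw [abs_neg, abs_of_pos (by positivity)]
        have h1 : t ^ d = t ^ (d + 2) * (t ^ 2)⁻¹ := by
          rw [pow_add]
          field_simp
        rw [h1]
        have := ht.2
        gcongr
    _ = ENNReal.ofReal (c1⁻¹ ^ (d + 2)) * ∫⁻ t in Icc K⁻¹ c1⁻¹,
          (ENNReal.ofReal |-(t ^ 2)⁻¹| * g (s + σ * t⁻¹)) := by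
        rw [lintegral_const_mul' _ _ ENNReal.ofReal_ne_top]
    _ = ENNReal.ofReal (c1⁻¹ ^ (d + 2)) * ∫⁻ u in (fun t : ℝ => t⁻¹) '' Icc K⁻¹ c1⁻¹,
          g (s + σ * u) := by rw [key]
    _ ≤ ENNReal.ofReal (c1⁻¹ ^ (d + 2)) * ∫⁻ u, g (s + σ * u) := by
        gcongr
        exact Measure.restrict_le_self
    _ = _ := by rw [lint_aff hσ hgm]

end Pool.Agent.Y893.TD
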