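import Pool.Agent.Y893.TD.Layer
import Pool.Agent.Y254.EL.Bwd

/-!
# Tube doubling from the Kakeya tube inequality: the classes
-/

set_option autoImplicit false

open MeasureTheory Set Metric
open scoped ENNReal NNReal

namespace Pool.Agent.Y893.TD
open Pool.Agent.Y254 (mult mult_meas lint_mult)
open Pool.Agent.Y254.EL
open Pool.Agent.W46.KK (eqvj eqvj_mp)

variable {d : ℕ}

/-- Euclidean space -/
abbrev E (d : ℕ) : Type := EuclideanSpace ℝ (Fin (d + 1))

/-- the `δ` tube -/
def T1 (δ : ℝ) (p : E d × E d) : Set (E d) :=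
  {x | ∃ t ∈ Icc (-1 / 2 : ℝ) (1 / 2), dist x (p.1 + t • p.2) < δ}

/-- its dilate -/
def T2 (δ : ℝ) (p : E d × E d) : Set (E d) :=
  {x | ∃ t ∈ Icc (-1 : ℝ) 1, dist x (p.1 + t • p.2) < 2 * δ}

theorem T1_open (δ : ℝ) (p : E d × E d) : IsOpen (T1 δ p) := by
  have : T1 δ p = ⋃ t ∈ Icc (-1 / 2 : ℝ) (1 / 2), ball (p.1 + t • p.2) δ := by
    ext x
    simp [T1, mem_ball]
  rw [this]
  exact isOpen_biUnion fun _ _ => isOpen_ball

theorem T2_open (δ : ℝ) (p : E d × E d) : IsOpen (T2 δ p) := by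
  have : T2 δ p = ⋃ t ∈ Icc (-1 : ℝ) 1, ball (p.1 + t • p.2) (2 * δ) := by
    ext x
    simp [T2, mem_ball]
  rw [this]
  exact isOpen_biUnion fun _ _ => isOpen_ball

theorem eqvj_fst (k : Fin (d + 1)) (x : E d) : (eqvj d k x).1 = x k := rfl

theorem eqvj_snd (k : Fin (d + 1)) (x : E d) (i : Fin d) : (eqvj d k x).2 i = x (k.succAbove i) := rfl

/-- A cell `m` meets the dilate of a tube with main direction `k`, whose centre is above (`σ = 1`)
or below (`σ = -1`) the cell. -/
def Good (δ : ℝ) (S : Set (E d × E d)) (k : Fin (d + 1)) (σ : ℝ) (m : Fin (d + 1) → ℤ) : Prop :=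
  ∃ p ∈ S, ∃ x ∈ T2 δ p, (∀ i, ⌊x i / δ⌋ = m i) ∧ (∀ i, |p.2 i| ≤ |p.2 k|) ∧
    0 ≤ σ * (p.1 k - δ * m k)

/-- cube of side 28 -/
def Bx (z : Fin (d + 1) → ℤ) : Set (E d) := {y | ∀ i, |y i - z i| ≤ 14}

theorem Bx_meas (z : Fin (d + 1) → ℤ) : MeasurableSet (Bx z) := by
  have : Bx z = ⋂ i, {y : E d | |y i - z i| ≤ 14} := by
    ext y
    simp [Bx]
  rw [this]
  refine MeasurableSet.iInter fun i => ?_
  have h1 : IsClosed {y : E d | |y i - z i| ≤ 14} :=
    isClosed_le (f := fun y : E d => |y i - z i|) (g := fun _ => 14) (by fun_prop)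
      continuous_const
  exact h1.measurableSet

theorem coord_le (x : E d) (i : Fin (d + 1)) : |x i| ≤ ‖x‖ := by
  have := PiLp.norm_apply_le x i
  rwa [Real.norm_eq_abs] at this

theorem cell_close {δ x : ℝ} (hδ : 0 < δ) {m : ℤ} (h : ⌊x / δ⌋ = m) : |x - δ * m| ≤ δ := by
  have h1 : (m : ℝ) ≤ x / δ := by rw [← h]; exact Int.floor_le _
  have h2 : x / δ < m + 1 := by rw [← h]; exact Int.lt_floor_add_one _
  rw [le_div_iff₀ hδ] at h1
  rw [div_lt_iff₀ hδ] at h2
  rw [abs_le]
  constructor <;> nlinarith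

/-- data of one tube and one cell -/
theorem tube_facts {δ : ℝ} (hδ : 0 < δ) (hδ1 : δ < 1) {k : Fin (d + 1)} {σ : ℝ}
    (hσ : σ = 1 ∨ σ = -1) {m : Fin (d + 1) → ℤ} {p : E d × E d} (hp : ‖p.2‖ = 1) {x : E d}
    (hx : x ∈ T2 δ p) (hm : ∀ i, ⌊x i / δ⌋ = m i) (hk : ∀ i, |p.2 i| ≤ |p.2 k|)
    (hs : 0 ≤ σ * (p.1 k - δ * m k)) :
    ∃ D : Fin d → ℝ, ‖D‖ ≤ 1 ∧
      (∀ y ∈ (eqvj d k).symm ⁻¹' (T1 δ p),
        ‖y.2 - (fun i => δ * m (k.succAbove i)) - (y.1 - δ * m k) • D‖ ≤ 8 * δ) ∧
      ∃ α β, 1 / (8 * ((d : ℝ) + 1)) ≤ α ∧ α + 1 / (8 * ((d : ℝ) + 1)) ≤ β ∧ β ≤ 5 ∧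
        ∀ u ∈ Icc α β, ENNReal.ofReal ((2 / ((d : ℝ) + 1) * δ) ^ d) ≤
          volume (Prod.mk (δ * m k + σ * u) ⁻¹' ((eqvj d k).symm ⁻¹' (T1 δ p))) := by
  obtain ⟨a, e⟩ := p
  simp only at hp hk hs
  obtain ⟨τ0, hτ0, hx0⟩ := hx
  simp only at hx0
  have hd1 : (0 : ℝ) < (d : ℝ) + 1 := by positivity
  have hd1' : (1 : ℝ) ≤ (d : ℝ) + 1 := by
    have : (0 : ℝ) ≤ d := Nat.cast_nonneg _
    linarith
  have hL : 1 / ((d : ℝ) + 1) ≤ |e k| := by
    have h1 := norm_le_coord (x := e) (abs_nonneg _) hk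
    rw [hp] at h1
    rw [div_le_iff₀ hd1]
    linarith
  have hL0 : 0 < |e k| := lt_of_lt_of_le (by positivity) hL
  have hL1 : |e k| ≤ 1 := hp ▸ coord_le e k
  have hek : e k ≠ 0 := abs_pos.mp hL0
  set r0 : E d := x - (a + τ0 • e) with hr0
  have hr0n : ‖r0‖ < 2 * δ := by rwa [dist_eq_norm] at hx0
  have hxi : ∀ i, x i = a i + τ0 * e i + r0 i := by
    intro i
    rw [hr0]
    simp only [PiLp.sub_apply, PiLp.add_apply, PiLp.smul_apply, smul_eq_mul]
    ring
  have hcl : ∀ i, |x i - δ * m i| ≤ δ := fun i => cell_close hδ (hm i)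
  have hτa : |τ0| ≤ 1 := abs_le.mpr hτ0
  refine ⟨fun i => e (k.succAbove i) / e k, ?_, ?_, ?_⟩
  · rw [pi_norm_le_iff_of_nonneg zero_le_one]
    intro i
    rw [Real.norm_eq_abs, abs_div, div_le_one hL0]
    exact hk _
  · intro y hy
    obtain ⟨τ, hτ, hy1⟩ := hy
    simp only at hy1
    set Y : E d := (eqvj d k).symm y with hY
    have hyY : y = eqvj d k Y := ((eqvj d k).apply_symm_apply y).symm
    set r : E d := Y - (a + τ • e) with hr
    have hrn : ‖r‖ < δ := by rwa [dist_eq_norm] at hy1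
    have hYi : ∀ i, Y i = a i + τ * e i + r i := by
      intro i
      rw [hr]
      simp only [PiLp.sub_apply, PiLp.add_apply, PiLp.smul_apply, smul_eq_mul]
      ring
    rw [pi_norm_le_iff_of_nonneg (by positivity)]
    intro i
    have h1 : y.2 i = Y (k.succAbove i) := by rw [hyY]; rfl
    have h2 : y.1 = Y k := by rw [hyY]; rfl
    rw [Real.norm_eq_abs]
    simp only [Pi.sub_apply, Pi.smul_apply, smul_eq_mul]
    rw [h1, h2]
    have h3 := hYi (k.succAbove i)
    have h4 := hYi k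
    have h5 := hxi (k.succAbove i)
    have h6 := hxi k
    set q : ℝ := e (k.succAbove i) / e k with hq
    have hqe : e (k.succAbove i) = q * e k := by rw [hq]; field_simp
    have hqa : |q| ≤ 1 := by
      rw [hq, abs_div, div_le_one hL0]
      exact hk _
    have h7 : Y (k.succAbove i) - δ * m (k.succAbove i) - (Y k - δ * m k) * q =
        (r (k.succAbove i) - r0 (k.succAbove i)) + (x (k.succAbove i) - δ * m (k.succAbove i)) -
          ((r k - r0 k) + (x k - δ * m k)) * q := by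
      rw [h3, h4, h5, h6, hqe]
      ring
    rw [h7]
    have b1 := (coord_le r (k.succAbove i)).trans hrn.le
    have b2 := (coord_le r0 (k.succAbove i)).trans hr0n.le
    have b3 := (coord_le r k).trans hrn.le
    have b4 := (coord_le r0 k).trans hr0n.le
    have b5 := hcl (k.succAbove i)
    have b6 := hcl k
    have c1 : |(r (k.succAbove i) - r0 (k.succAbove i)) +
        (x (k.succAbove i) - δ * m (k.succAbove i))| ≤ 4 * δ := by
      refine (abs_add_le _ _).trans ?_
      have := abs_sub (r (k.succAbove i)) (r0 (k.succAbove i))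
      linarith
    have c2 : |((r k - r0 k) + (x k - δ * m k)) * q| ≤ 4 * δ := by
      rw [abs_mul]
      have h8 : |(r k - r0 k) + (x k - δ * m k)| ≤ 4 * δ := by
        refine (abs_add_le _ _).trans ?_
        have := abs_sub (r k) (r0 k)
        linarith
      calc _ ≤ (4 * δ) * 1 := by gcongr
        _ = 4 * δ := mul_one _
    refine (abs_sub _ _).trans ?_
    linarith
  · set h0 : ℝ := a k - δ * m k with hh0
    have hσh : σ * h0 = |h0| := by
      rcases hσ with rfl | rfl
      · rw [one_mul] at hs ⊢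
        exact (abs_of_nonneg hs).symm
      · have : h0 ≤ 0 := by linarith
        rw [abs_of_nonpos this]
        ring
    have hh0a : |h0| ≤ 4 := by
      have h1 : h0 = (x k - δ * m k) - r0 k - τ0 * e k := by
        rw [hh0, hxi k]
        ring
      have b4 := (coord_le r0 k).trans hr0n.le
      have b6 := hcl k
      have b7 : |τ0 * e k| ≤ 1 := by
        rw [abs_mul]
        nlinarith [abs_nonneg τ0, abs_nonneg (e k)]
      rw [h1]
      have e1 := abs_sub ((x k - δ * m k) - r0 k) (τ0 * e k)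
      have e2 := abs_sub (x k - δ * m k) (r0 k)
      linarith
    have hc : 1 / (8 * ((d : ℝ) + 1)) ≤ |e k| / 8 := by
      have : 1 / (8 * ((d : ℝ) + 1)) = 1 / ((d : ℝ) + 1) / 8 := by field_simp
      rw [this]
      gcongr
    refine ⟨|h0| + |e k| / 4, |h0| + |e k| / 2, ?_, ?_, ?_, ?_⟩
    · have := abs_nonneg h0
      linarith
    · linarith
    · linarith
    · intro u hu
      have hσσ : σ * σ = 1 := by rcases hσ with rfl | rfl <;> norm_num
      set τ : ℝ := (σ * u - h0) / e k with hτ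
      have hτh : |τ| ≤ 1 / 2 := by
        rw [hτ, abs_div, div_le_iff₀ hL0]
        have h1 : |σ * u - h0| = |u - (|h0|)| := by
          have h2 : σ * u - h0 = σ * (u - |h0|) := by
            rw [← hσh, mul_sub, ← mul_assoc σ σ h0, hσσ, one_mul]
          have hσa : |σ| = 1 := by rcases hσ with rfl | rfl <;> simp
          rw [h2, abs_mul, hσa, one_mul]
        rw [h1, abs_le]
        constructor <;> linarith [hu.1, hu.2]
      have hτe : δ * m k + σ * u = a k + τ * e k := by
        rw [hτ, div_mul_cancel₀ _ hek, hh0]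
        ring
      have hball : ball (fun i => a (k.succAbove i) + τ * e (k.succAbove i)) (δ / ((d : ℝ) + 1)) ⊆
          Prod.mk (δ * m k + σ * u) ⁻¹' ((eqvj d k).symm ⁻¹' (T1 δ (a, e))) := by
        intro w hw
        rw [mem_ball, dist_eq_norm] at hw
        refine ⟨τ, ⟨by linarith [(abs_le.mp hτh).1], (abs_le.mp hτh).2⟩, ?_⟩
        simp only
        set Y : E d := (eqvj d k).symm (δ * m k + σ * u, w) with hY
        have hyY : (δ * m k + σ * u, w) = eqvj d k Y := ((eqvj d k).apply_symm_apply _).symm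
        have h1 : Y k = δ * m k + σ * u := (congrArg Prod.fst hyY).symm
        have h2 : ∀ i, Y (k.succAbove i) = w i := fun i =>
          (congrFun (congrArg Prod.snd hyY) i).symm
        rw [dist_eq_norm]
        set η : ℝ := ‖w - fun i => a (k.succAbove i) + τ * e (k.succAbove i)‖ with hη
        have h3 : ∀ j, |(Y - (a + τ • e)) j| ≤ η := by
          rw [Fin.forall_iff_succAbove k]
          constructor
          · simp only [PiLp.sub_apply, PiLp.add_apply, PiLp.smul_apply, smul_eq_mul]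
            rw [h1, hτe, sub_self, abs_zero]
            positivity
          · intro i
            simp only [PiLp.sub_apply, PiLp.add_apply, PiLp.smul_apply, smul_eq_mul]
            rw [h2]
            have := norm_le_pi_norm (w - fun i => a (k.succAbove i) + τ * e (k.succAbove i)) i
            rwa [Real.norm_eq_abs] at this
        have h4 := norm_le_coord (norm_nonneg _) h3
        rw [lt_div_iff₀ hd1] at hw
        linarith
      refine le_trans (le_of_eq ?_) (measure_mono hball)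
      rw [Real.volume_pi_ball _ (by positivity), Fintype.card_fin]
      congr 2
      ring

end Pool.Agent.Y893.TD
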