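import Pool.Agent.Y893.TD.Core

/-!
# Tube doubling from the Kakeya tube inequality: one layer, the estimate
-/

set_option autoImplicit false

open MeasureTheory Set Metric
open scoped ENNReal NNReal

namespace Pool.Agent.Y893.TD
open Pool.Agent.Y254 (mult mult_meas lint_mult)
open Pool.Agent.Y254.EL

variable {d : ℕ}

/-- the computation with exponents -/
theorem numer (hd : 1 ≤ d) {c q : ℝ} (hc : 1 < c) (hq : q = 1 + c / d) {c4 CL : ℝ} (h4 : 0 < c4)
    (hCL : 0 < CL) : ∃ C : ℝ, 0 < C ∧ ∀ δ : ℝ, 0 < δ → δ < 1 → ∀ N X : ℝ, 0 ≤ N → 0 ≤ X →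
      N ≤ (4 / δ) ^ d →
      N * (c4 * δ ^ d) ≤ (CL * (δ ^ d * N ^ (q - 1 / (d : ℝ)))) ^ (1 / q) * X ^ (1 - 1 / q) →
      δ ^ d * N ≤ C * δ ^ (-((d : ℝ) * (1 - 1 / c))) * X := by
  have hd0 : (0 : ℝ) < d := by exact_mod_cast hd
  have hc0 : 0 < c := by linarith
  have hq1 : q - 1 = c / d := by rw [hq]; ring
  have hq0 : 0 < q := by
    have : 0 < c / (d : ℝ) := by positivity
    linarith
  have hqp : 0 < q - 1 := by rw [hq1]; positivity
  set r : ℝ := (q - 1)⁻¹ with hr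
  have hr0 : 0 < r := inv_pos.mpr hqp
  have hrd : 1 / (d : ℝ) * r = 1 / c := by
    rw [hr, hq1]
    field_simp
  set M : ℝ := (c4 ^ q / CL) ^ r with hM
  have hM0 : 0 < M := by positivity
  refine ⟨M⁻¹ * 4 ^ ((d : ℝ) * (1 - 1 / c)), by positivity, ?_⟩
  intro δ hδ hδ1 N X hN hX hNd h
  set D : ℝ := δ ^ d with hD
  have hD0 : 0 < D := by positivity
  rcases hN.eq_or_lt with h0 | hN0
  · rw [← h0, mul_zero]
    positivity
  have h1 : (N * (c4 * D)) ^ q ≤ (CL * (D * N ^ (q - 1 / (d : ℝ)))) * X ^ (q - 1) := by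
    have h2 := Real.rpow_le_rpow (by positivity) h hq0.le
    rw [Real.mul_rpow (x := (CL * (D * N ^ (q - 1 / (d : ℝ)))) ^ (1 / q)) (by positivity)
      (by positivity), ← Real.rpow_mul (by positivity),
      ← Real.rpow_mul hX, one_div_mul_cancel hq0.ne', Real.rpow_one] at h2
    have h3 : (1 - 1 / q) * q = q - 1 := by field_simp
    rwa [h3] at h2
  have e1 : (N * (c4 * D)) ^ q =
      (N ^ (q - 1 / (d : ℝ)) * D) * (c4 ^ q * (D ^ (q - 1) * N ^ (1 / (d : ℝ)))) := by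
    rw [Real.mul_rpow hN (by positivity), Real.mul_rpow h4.le hD0.le]
    have e2 : N ^ q = N ^ (q - 1 / (d : ℝ)) * N ^ (1 / (d : ℝ)) := by
      rw [← Real.rpow_add hN0]
      congr 1
      ring
    have e3 : D ^ q = D * D ^ (q - 1) := by
      rw [Real.rpow_sub_one hD0.ne']
      field_simp
    rw [e2, e3]
    ring
  have h5 : c4 ^ q * (D ^ (q - 1) * N ^ (1 / (d : ℝ))) ≤ CL * X ^ (q - 1) := by
    rw [e1] at h1
    have hpos : 0 < N ^ (q - 1 / (d : ℝ)) * D := by positivity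
    have h6 : (CL * (D * N ^ (q - 1 / (d : ℝ)))) * X ^ (q - 1) =
        (N ^ (q - 1 / (d : ℝ)) * D) * (CL * X ^ (q - 1)) := by ring
    rw [h6] at h1
    exact le_of_mul_le_mul_left h1 hpos
  have h7 : c4 ^ q / CL * (D ^ (q - 1) * N ^ (1 / (d : ℝ))) ≤ X ^ (q - 1) := by
    rw [div_mul_eq_mul_div, div_le_iff₀ hCL]
    linarith
  have h8 : M * (D * N ^ (1 / c)) ≤ X := by
    have h9 := Real.rpow_le_rpow (by positivity) h7 hr0.le
    rw [← Real.rpow_mul hX, mul_inv_cancel₀ hqp.ne', Real.rpow_one,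
      Real.mul_rpow (by positivity) (by positivity), Real.mul_rpow (by positivity) (by positivity),
      ← Real.rpow_mul hD0.le, mul_inv_cancel₀ hqp.ne', Real.rpow_one, ← Real.rpow_mul hN, hrd] at h9
    exact h9
  have h10 : N ^ (1 - 1 / c) ≤ 4 ^ ((d : ℝ) * (1 - 1 / c)) * δ ^ (-((d : ℝ) * (1 - 1 / c))) := by
    have h11 : 0 ≤ 1 - 1 / c := by
      rw [sub_nonneg, div_le_one hc0]
      exact hc.le
    have h12 := Real.rpow_le_rpow hN hNd h11
    refine h12.trans (le_of_eq ?_)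
    rw [← Real.rpow_natCast, ← Real.rpow_mul (by positivity), Real.div_rpow (by norm_num) hδ.le,
      Real.rpow_neg hδ.le, div_eq_mul_inv]
  have h13 : N = N ^ (1 / c) * N ^ (1 - 1 / c) := by
    rw [← Real.rpow_add hN0]
    have : 1 / c + (1 - 1 / c) = 1 := by ring
    rw [this, Real.rpow_one]
  have h14 : D * N ^ (1 / c) ≤ M⁻¹ * X := by
    rw [inv_mul_eq_div, le_div_iff₀ hM0]
    linarith
  calc D * N = (D * N ^ (1 / c)) * N ^ (1 - 1 / c) := by
        rw [mul_assoc, ← h13]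
    _ ≤ (M⁻¹ * X) * (4 ^ ((d : ℝ) * (1 - 1 / c)) * δ ^ (-((d : ℝ) * (1 - 1 / c)))) := by
        gcongr
    _ = _ := by ring

/-- the points of the preimages -/
theorem pre_facts {ι : Type} {s σ : ℝ} (hσ : σ = 1 ∨ σ = -1) {c1 K C0 δ : ℝ} (hc1 : 0 < c1)
    (hK : 1 ≤ K) (hC0 : 1 ≤ C0) (hδ : 0 < δ) (hδ1 : δ < 1) {b : Fin d → ℝ}
    {v D : ι → Fin d → ℝ} (hvb : ∀ i, ‖v i - b‖ ≤ 1) (hD : ∀ i, ‖D i‖ ≤ 1)
    {T : ι → Set (Pt d)} {A : Set (Pt d)} (hTA : ∀ i, T i ⊆ A)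
    (htube : ∀ i, ∀ y ∈ T i, ‖y.2 - v i - (y.1 - s) • D i‖ ≤ C0 * δ) :
    ∀ i, ∀ z ∈ pre s σ b c1 K (T i),
      z ∈ pre s σ b c1 K (A ∩ {y | |y.1 - s| ≤ K ∧ ‖y.2 - b‖ ≤ 1 + K + C0}) ∧
      ‖z.2 - σ • D i - z.1 • (v i - b)‖ ≤ C0 / c1 * δ := by
  have hK0 : 0 < K := by linarith
  intro i z hz
  obtain ⟨hz1, hz2⟩ := hz
  have ht0 : 0 < z.1 := lt_of_lt_of_le (inv_pos.mpr hK0) hz1.1
  have hzi : z.1⁻¹ ≤ K := by
    have := inv_anti₀ (inv_pos.mpr hK0) hz1.1
    rwa [inv_inv] at this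
  have hy := htube i _ hz2
  have hσa : |σ| = 1 := by rcases hσ with rfl | rfl <;> simp
  have hy1 : (psi s σ b z).1 - s = σ * z.1⁻¹ := by unfold psi; ring
  have hy1a : |(psi s σ b z).1 - s| ≤ K := by
    rw [hy1, abs_mul, hσa, one_mul, abs_of_pos (inv_pos.mpr ht0)]
    exact hzi
  constructor
  · refine ⟨hz1, ?_⟩
    refine ⟨hTA i hz2, hy1a, ?_⟩
    have h3 : (psi s σ b z).2 - b = ((psi s σ b z).2 - v i - ((psi s σ b z).1 - s) • D i) +
        (v i - b) + ((psi s σ b z).1 - s) • D i := by abel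
    rw [h3]
    refine (norm_add_le _ _).trans ?_
    refine (add_le_add (norm_add_le _ _) le_rfl).trans ?_
    rw [norm_smul, Real.norm_eq_abs]
    have h4 : |(psi s σ b z).1 - s| * ‖D i‖ ≤ K * 1 := by
      gcongr
      exact hD i
    have h5 : C0 * δ ≤ C0 := by nlinarith
    have h6 := hvb i
    linarith
  · have h7 : z.2 - σ • D i - z.1 • (v i - b) =
        z.1 • ((psi s σ b z).2 - v i - ((psi s σ b z).1 - s) • D i) := by
      rw [hy1]
      unfold psi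
      have : z.1 * (σ * z.1⁻¹) = σ := by field_simp
      simp only [smul_sub, smul_add, smul_smul, mul_inv_cancel₀ ht0.ne', one_smul, this]
      abel
    rw [h7, norm_smul, Real.norm_eq_abs, abs_of_pos ht0]
    calc z.1 * ‖(psi s σ b z).2 - v i - ((psi s σ b z).1 - s) • D i‖
        ≤ c1⁻¹ * (C0 * δ) := by
          gcongr
          exact hz1.2
      _ = C0 / c1 * δ := by rw [div_eq_mul_inv]; ring

/-- The estimate for one layer: separated points `v i` of a horizontal layer at height `s`, and sets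
`T i` near lines through them. -/
def LayerP (d : ℕ) (c : ℝ) : Prop := ∀ c1 K C0 κ : ℝ, 0 < c1 → c1 ≤ 1 → 1 ≤ K → 1 ≤ C0 → 0 < κ →
    ∃ C : ℝ, 0 < C ∧ ∀ δ : ℝ, 0 < δ → δ < 1 → ∀ {ι : Type} [Fintype ι] (s σ : ℝ),
      (σ = 1 ∨ σ = -1) → ∀ (b : Fin d → ℝ) (v D : ι → Fin d → ℝ) (T : ι → Set (Pt d))
      (A : Set (Pt d)), MeasurableSet A → (∀ i, MeasurableSet (T i)) → (∀ i, T i ⊆ A) →
      (∀ i, ‖v i - b‖ ≤ 1) → Sep δ v → (∀ i, ‖D i‖ ≤ 1) →
      (∀ i, ∀ y ∈ T i, ‖y.2 - v i - (y.1 - s) • D i‖ ≤ C0 * δ) →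
      (∀ i, ∃ α β, c1 ≤ α ∧ α + c1 ≤ β ∧ β ≤ K ∧ ∀ u ∈ Icc α β,
        ENNReal.ofReal ((κ * δ) ^ d) ≤ volume (Prod.mk (s + σ * u) ⁻¹' T i)) →
      ENNReal.ofReal (δ ^ d * Fintype.card ι) ≤
        ENNReal.ofReal (C * δ ^ (-((d : ℝ) * (1 - 1 / c)))) *
          volume (A ∩ {y | |y.1 - s| ≤ K ∧ ‖y.2 - b‖ ≤ 1 + K + C0})

theorem layer (hd : 1 ≤ d) {c q : ℝ} (hc : 1 < c) (hq : q = 1 + c / d)
    (hLF : ∀ R : ℝ, 1 ≤ R → ∃ C : ℝ, 0 ≤ C ∧ LF d R q C) : LayerP d c := by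
  intro c1 K C0 κ hc1 hc1' hK hC0 hκ
  have hd0 : (0 : ℝ) < d := by exact_mod_cast hd
  have hc0 : 0 < c := by linarith
  have hK0 : 0 < K := by linarith
  have hq1 : 1 < q := by
    have : 0 < c / (d : ℝ) := by positivity
    linarith
  have hq0 : 0 < q := by linarith
  set R : ℝ := C0 / c1 with hR
  have hRc : c1⁻¹ ≤ R := by
    rw [hR, div_eq_mul_inv]
    have : 0 < c1⁻¹ := inv_pos.mpr hc1
    nlinarith
  have hR1 : 1 ≤ R := (one_le_inv_iff₀.mpr ⟨hc1, hc1'⟩).trans hRc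
  obtain ⟨CL', hCL', hL⟩ := hLF R hR1
  set CL : ℝ := CL' + 1 with hCLd
  have hCL : 0 < CL := by linarith
  set c4 : ℝ := c1 / K ^ 2 * (K⁻¹ ^ d * κ ^ d) with hc4d
  have hc4 : 0 < c4 := by positivity
  obtain ⟨C, hC, hnum⟩ := numer hd hc hq hc4 hCL
  refine ⟨C * c1⁻¹ ^ (d + 2), by positivity, ?_⟩
  intro δ hδ hδ1 ι _ s σ hσ b v D T A hA hT hTA hvb hsep hD htube hlow
  set box : Set (Pt d) := {y | |y.1 - s| ≤ K ∧ ‖y.2 - b‖ ≤ 1 + K + C0} with hbox
  have hboxm : MeasurableSet box := by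
    have h1 : IsClosed {y : Pt d | |y.1 - s| ≤ K} :=
      isClosed_le (f := fun y : Pt d => |y.1 - s|) (g := fun _ => K) (by fun_prop) continuous_const
    have h2 : IsClosed {y : Pt d | ‖y.2 - b‖ ≤ 1 + K + C0} :=
      isClosed_le (f := fun y : Pt d => ‖y.2 - b‖) (g := fun _ => 1 + K + C0) (by fun_prop)
        continuous_const
    exact (h1.inter h2).measurableSet
  set X : Set (Pt d) := A ∩ box with hX
  have hXm : MeasurableSet X := hA.inter hboxm
  have hXfin : volume X ≠ ∞ := by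
    refine ne_top_of_le_ne_top ?_ (measure_mono (inter_subset_right : X ⊆ box))
    have h1 : box ⊆ closedBall (s, b) (1 + K + C0) := by
      rintro y ⟨hy1, hy2⟩
      rw [mem_closedBall, dist_eq_norm, Prod.norm_def]
      refine max_le ?_ hy2
      rw [Prod.fst_sub, Real.norm_eq_abs]
      linarith
    exact ((measure_mono h1).trans_lt measure_closedBall_lt_top).ne
  set A' : Set (Pt d) := pre s σ b c1 K X with hA'
  have hA'm : MeasurableSet A' := pre_meas s σ b c1 K hXm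
  have hup : volume A' ≤ ENNReal.ofReal (c1⁻¹ ^ (d + 2)) * volume X := pre_up hσ hc1 hK0 hXm
  have hA'fin : volume A' ≠ ∞ :=
    ne_top_of_le_ne_top (ENNReal.mul_ne_top ENNReal.ofReal_ne_top hXfin) hup
  set T' : ι → Set (Pt d) := fun i => pre s σ b c1 K (T i) with hT'
  have hT'm : ∀ i, MeasurableSet (T' i) := fun i => pre_meas s σ b c1 K (hT i)
  have hpt0 := pre_facts (b := b) hσ hc1 hK hC0 hδ hδ1 hvb hD hTA htube
  have hpt : ∀ i, ∀ z ∈ T' i, z ∈ A' ∧ z ∈ tb R (R * δ) 0 (σ • D i) (v i - b) := by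
    intro i z hz
    obtain ⟨h1, h2⟩ := hpt0 i z hz
    have ht0 : 0 < z.1 := lt_of_lt_of_le (inv_pos.mpr hK0) hz.1.1
    refine ⟨h1, ?_, h2⟩
    rw [sub_zero, abs_of_pos ht0]
    exact hz.1.2.trans hRc
  set N : ℝ := (Fintype.card ι : ℝ) with hN
  set TB : ι → Set (Pt d) := fun i => tb R (R * δ) 0 (σ • D i) (v i - b) with hTB
  have hmono : ∀ z, mult T' z ≤ mult TB z := by
    intro z
    unfold Pool.Agent.Y254.mult
    refine Finset.sum_le_sum fun i _ => ?_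
    exact indicator_le_indicator_of_subset (fun z hz => (hpt i z hz).2) (fun _ => zero_le) z
  have hsum : ENNReal.ofReal (N * (c4 * δ ^ d)) ≤ ∫⁻ z in A', mult T' z := by
    have h1 : ∫⁻ z in A', mult T' z = ∫⁻ z, mult T' z := by
      rw [← lintegral_indicator hA'm]
      refine lintegral_congr fun z => ?_
      by_cases hz : z ∈ A'
      · rw [indicator_of_mem hz]
      · rw [indicator_of_notMem hz]
        symm
        unfold Pool.Agent.Y254.mult
        refine Finset.sum_eq_zero fun i _ => ?_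
        rw [indicator_of_notMem]
        exact fun h => hz (hpt i z h).1
    rw [h1, lint_mult volume hT'm, ENNReal.ofReal_mul (by positivity), hN, ENNReal.ofReal_natCast]
    rw [← nsmul_eq_mul, ← Finset.card_univ, ← Finset.sum_const]
    refine Finset.sum_le_sum fun i _ => ?_
    obtain ⟨α, β, h2, h3, h4, h5⟩ := hlow i
    refine le_trans (le_of_eq ?_) (pre_low (b := b) hc1 (by positivity) (hT i) h2 h3 h4 h5)
    congr 1
    rw [hc4d, mul_pow]
    ring
  have hhol := holder_set (volume : Measure (Pt d)) A' (mult T') hq1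
  have hLFi : ∫⁻ z, mult T' z ^ q ≤ ENNReal.ofReal (CL * (δ ^ d * N ^ (q - 1 / (d : ℝ)))) := by
    refine (lintegral_mono fun z => ENNReal.rpow_le_rpow (hmono z) hq0.le).trans ?_
    refine (hL δ hδ hδ1 (fun _ => 0) (fun i => σ • D i) (fun i => v i - b) hvb ?_).trans ?_
    · intro i j hij
      have h1 : v i - b - (v j - b) = v i - v j := by abel
      rw [h1]
      exact hsep i j hij
    · apply ENNReal.ofReal_le_ofReal
      gcongr
      linarith
  set x : ℝ := (volume A').toReal with hx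
  have hx0 : 0 ≤ x := ENNReal.toReal_nonneg
  have hxe : volume A' = ENNReal.ofReal x := (ENNReal.ofReal_toReal hA'fin).symm
  have hcard : N ≤ (4 / δ) ^ d := by
    have h1 := card_ball hδ zero_le_one hsep b Finset.univ (fun j _ => hvb j)
    rw [Finset.card_univ] at h1
    refine h1.trans ?_
    gcongr
    rw [mul_one, div_add' _ _ _ hδ.ne']
    gcongr
    linarith
  have hreal : N * (c4 * δ ^ d) ≤
      (CL * (δ ^ d * N ^ (q - 1 / (d : ℝ)))) ^ (1 / q) * x ^ (1 - 1 / q) := by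
    have h11 : 0 ≤ 1 - 1 / q := by
      rw [sub_nonneg, div_le_one hq0]
      exact hq1.le
    have h1 : ENNReal.ofReal (N * (c4 * δ ^ d)) ≤
        ENNReal.ofReal ((CL * (δ ^ d * N ^ (q - 1 / (d : ℝ)))) ^ (1 / q) * x ^ (1 - 1 / q)) := by
      have hY0 : 0 ≤ CL * (δ ^ d * N ^ (q - 1 / (d : ℝ))) := by positivity
      rw [ENNReal.ofReal_mul (p := (CL * (δ ^ d * N ^ (q - 1 / (d : ℝ)))) ^ (1 / q))
        (by positivity), ← ENNReal.ofReal_rpow_of_nonneg hY0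
        (by positivity), ← ENNReal.ofReal_rpow_of_nonneg hx0 h11, ← hxe]
      refine hsum.trans (hhol.trans ?_)
      gcongr
    exact (ENNReal.ofReal_le_ofReal_iff (by positivity)).1 h1
  have hfin := hnum δ hδ hδ1 N x (by positivity) hx0 hcard hreal
  calc ENNReal.ofReal (δ ^ d * N)
      ≤ ENNReal.ofReal (C * δ ^ (-((d : ℝ) * (1 - 1 / c))) * x) := ENNReal.ofReal_le_ofReal hfin
    _ = ENNReal.ofReal (C * δ ^ (-((d : ℝ) * (1 - 1 / c)))) * volume A' := by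
        rw [ENNReal.ofReal_mul (by positivity), hxe]
    _ ≤ ENNReal.ofReal (C * δ ^ (-((d : ℝ) * (1 - 1 / c)))) *
          (ENNReal.ofReal (c1⁻¹ ^ (d + 2)) * volume X) := by gcongr
    _ = _ := by
        rw [← mul_assoc, ← ENNReal.ofReal_mul (by positivity)]
        congr 2
        ring

end Pool.Agent.Y893.TD
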