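import Pool.Agent.Y893.TD.Layer
import Pool.Agent.Y254.HK.StmG

/-!
# Tube doubling from the counting inequality for lines with dense sets of heights: one layer
-/

set_option autoImplicit false

open MeasureTheory Set Metric
open scoped ENNReal NNReal

namespace Pool.Agent.Y893.TD
open Pool.Agent.Y254.EL
open Pool.Agent.Y254HK (DenseG)
open Pool.Agent.W46.HD (IsFam cell)

variable {d : ℕ}

/-- the computation with exponents -/
theorem numerD {c' c ε CE B Λ : ℝ} (hc' : 1 < c') (hcc : c' < c) (hε : ε = c' * (d * (1 / c' - 1 / c)))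
    (hΛ : 0 < Λ) {δ N Z x n : ℝ} (hδ : 0 < δ) (hN : 1 ≤ N) (hZ : 0 < Z)
    (hn : 1 ≤ n) (hnΛ : n ≤ Λ / δ) (hNd : N ≤ (4 / δ) ^ d) (hZx : Z * δ ^ d ≤ B * x)
    (hlog : Real.log N ≤ c' * Real.log Z + ε * Real.log n + CE) :
    δ ^ d * N ≤ B * Λ ^ (ε / c') * Real.exp (CE / c') * 4 ^ ((d : ℝ) * (1 - 1 / c')) *
      δ ^ (-((d : ℝ) * (1 - 1 / c))) * x := by
  have hc0 : 0 < c' := by linarith
  have hc00 : 0 < c := by linarith
  have hN0 : 0 < N := by linarith
  have hn0 : 0 < n := by linarith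
  have hε0 : 0 ≤ ε / c' := by
    rw [hε, mul_div_cancel_left₀ _ hc0.ne']
    have : 1 / c ≤ 1 / c' := one_div_le_one_div_of_le hc0 hcc.le
    have hd0 : (0 : ℝ) ≤ d := Nat.cast_nonneg _
    nlinarith
  have h1 : N ^ (1 / c') ≤ Z * n ^ (ε / c') * Real.exp (CE / c') := by
    have h2 : Real.log (N ^ (1 / c')) ≤ Real.log (Z * n ^ (ε / c') * Real.exp (CE / c')) := by
      rw [Real.log_rpow hN0, Real.log_mul (by positivity) (by positivity),
        Real.log_mul hZ.ne' (by positivity), Real.log_rpow hn0, Real.log_exp]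
      have h3 : 1 / c' * Real.log N ≤ 1 / c' * (c' * Real.log Z + ε * Real.log n + CE) := by
        gcongr
      refine h3.trans (le_of_eq ?_)
      field_simp
    exact (Real.log_le_log_iff (by positivity) (by positivity)).mp h2
  have h5 : n ^ (ε / c') ≤ Λ ^ (ε / c') * δ ^ (-(ε / c')) := by
    refine (Real.rpow_le_rpow hn0.le hnΛ hε0).trans (le_of_eq ?_)
    rw [Real.div_rpow hΛ.le hδ.le, Real.rpow_neg hδ.le, div_eq_mul_inv]
  have h10 : N ^ (1 - 1 / c') ≤ 4 ^ ((d : ℝ) * (1 - 1 / c')) * δ ^ (-((d : ℝ) * (1 - 1 / c'))) := by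
    have h11 : 0 ≤ 1 - 1 / c' := by
      rw [sub_nonneg, div_le_one hc0]
      exact hc'.le
    have h12 := Real.rpow_le_rpow hN0.le hNd h11
    refine h12.trans (le_of_eq ?_)
    rw [← Real.rpow_natCast, ← Real.rpow_mul (by positivity), Real.div_rpow (by norm_num) hδ.le,
      Real.rpow_neg hδ.le, div_eq_mul_inv]
  have h13 : N = N ^ (1 / c') * N ^ (1 - 1 / c') := by
    rw [← Real.rpow_add hN0]
    have : 1 / c' + (1 - 1 / c') = 1 := by ring
    rw [this, Real.rpow_one]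
  have h14 : δ ^ (-((d : ℝ) * (1 - 1 / c))) =
      δ ^ (-(ε / c')) * δ ^ (-((d : ℝ) * (1 - 1 / c'))) := by
    rw [← Real.rpow_add hδ]
    congr 1
    rw [hε, mul_div_cancel_left₀ _ hc0.ne']
    ring
  have hD0 : 0 < δ ^ d := by positivity
  have hx0 : 0 ≤ B * x := le_trans (by positivity) hZx
  calc δ ^ d * N = (δ ^ d * N ^ (1 / c')) * N ^ (1 - 1 / c') := by
        rw [mul_assoc, ← h13]
    _ ≤ (δ ^ d * (Z * n ^ (ε / c') * Real.exp (CE / c'))) *
          (4 ^ ((d : ℝ) * (1 - 1 / c')) * δ ^ (-((d : ℝ) * (1 - 1 / c')))) := by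
        gcongr
    _ = (Z * δ ^ d) * n ^ (ε / c') * Real.exp (CE / c') *
          (4 ^ ((d : ℝ) * (1 - 1 / c')) * δ ^ (-((d : ℝ) * (1 - 1 / c')))) := by ring
    _ ≤ (B * x) * (Λ ^ (ε / c') * δ ^ (-(ε / c'))) * Real.exp (CE / c') *
          (4 ^ ((d : ℝ) * (1 - 1 / c')) * δ ^ (-((d : ℝ) * (1 - 1 / c')))) := by
        gcongr
    _ = _ := by rw [h14]; ring

/-- many grid heights in an interval -/
theorem many_heights {x y h w R : ℝ} (hh : 0 < h) (hx : 0 ≤ x) (hw : w * 2 ≤ (y - x) / h) (hw2 : 2 ≤ w)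
    {n : ℕ} (hn : R = n * h) (hyR : y ≤ R) :
    w ≤ ((Finset.univ.filter fun j : Fin n => x ≤ (j : ℕ) * h ∧ (((j : ℕ) : ℝ) + 1) * h ≤ y).card : ℝ) := by
  classical
  set a : ℕ := ⌈x / h⌉₊ with ha
  set b : ℕ := ⌊y / h⌋₊ with hb
  have hxy : x ≤ y := by
    have h1 : 0 ≤ (y - x) / h := by linarith
    have h2 := mul_nonneg h1 hh.le
    rw [div_mul_cancel₀ _ hh.ne'] at h2
    linarith
  have hy0 : 0 ≤ y := hx.trans hxy
  have h1 : (a : ℝ) < x / h + 1 := Nat.ceil_lt_add_one (by positivity)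
  have h2 : y / h - 1 < b := Nat.sub_one_lt_floor _
  have h3 : (Finset.Ico a b).card ≤ (Finset.univ.filter fun j : Fin n =>
      x ≤ (j : ℕ) * h ∧ (((j : ℕ) : ℝ) + 1) * h ≤ y).card := by
    refine Finset.card_le_card_of_surjOn (fun j : Fin n => (j : ℕ)) ?_
    intro j hj
    rw [Finset.mem_coe, Finset.mem_Ico] at hj
    have h4 : x / h ≤ j := (Nat.le_ceil _).trans (by exact_mod_cast hj.1)
    have h5 : ((j : ℝ) + 1) ≤ y / h := by
      have h6 : ((j + 1 : ℕ) : ℝ) ≤ b := by exact_mod_cast hj.2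
      have h7 : (b : ℝ) ≤ y / h := Nat.floor_le (by positivity)
      push_cast at h6
      linarith
    rw [div_le_iff₀ hh] at h4
    rw [le_div_iff₀ hh] at h5
    have h6 : j < n := by
      have h7 : ((j : ℝ) + 1) * h ≤ n * h := by rw [← hn]; exact h5.trans hyR
      have h8 := le_of_mul_le_mul_right h7 hh
      have h9 : (j : ℝ) < n := by linarith
      exact_mod_cast h9
    refine ⟨⟨j, h6⟩, ?_, rfl⟩
    rw [Finset.mem_coe, Finset.mem_filter]
    exact ⟨Finset.mem_univ _, h4, h5⟩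
  have h4 : (y - x) / h - 2 ≤ ((Finset.Ico a b).card : ℝ) := by
    rw [Nat.card_Ico]
    have h5 : (b : ℝ) - a ≤ ((b - a : ℕ) : ℝ) := by
      rcases le_total a b with h | h
      · rw [Nat.cast_sub h]
      · have h6 : (b : ℝ) ≤ a := by exact_mod_cast h
        have h7 : (0 : ℝ) ≤ ((b - a : ℕ) : ℝ) := Nat.cast_nonneg _
        linarith
    rw [sub_div]
    linarith
  have h5 : ((Finset.Ico a b).card : ℝ) ≤ _ := Nat.cast_le.mpr h3
  linarith

/-- Sum over the steps of heights. -/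
theorem sum_steps {h : ℝ} (hh : 0 < h) (n : ℕ) {f : ℝ → ℝ≥0∞} {a : Fin n → ℝ≥0∞}
    (hf : ∀ (j : Fin n), ∀ t ∈ Ico ((j : ℕ) * h) ((((j : ℕ) : ℝ) + 1) * h), a j ≤ f t) :
    ENNReal.ofReal h * ∑ j, a j ≤ ∫⁻ t, f t := by
  have hdis : Pairwise (Function.onFun Disjoint fun j : Fin n =>
      Ico ((j : ℕ) * h) ((((j : ℕ) : ℝ) + 1) * h)) := by
    have key : ∀ i j : Fin n, i < j → Disjoint (Ico ((i : ℕ) * h) ((((i : ℕ) : ℝ) + 1) * h))
        (Ico ((j : ℕ) * h) ((((j : ℕ) : ℝ) + 1) * h)) := by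
      intro i j hij
      rw [Set.disjoint_left]
      intro t ht ht'
      have h1 : (((i : ℕ) : ℝ) + 1) ≤ (j : ℕ) := by
        have : (i : ℕ) + 1 ≤ (j : ℕ) := hij
        exact_mod_cast this
      have h2 : (((i : ℕ) : ℝ) + 1) * h ≤ (j : ℕ) * h := by gcongr
      have h3 := ht.2
      have h4 := ht'.1
      linarith
    intro i j hij
    rcases lt_or_gt_of_ne hij with h1 | h1
    · exact key i j h1
    · exact (key j i h1).symm
  calc ENNReal.ofReal h * ∑ j, a j
      = ∑ j : Fin n, ∫⁻ _t in Ico ((j : ℕ) * h) ((((j : ℕ) : ℝ) + 1) * h), a j := by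
        rw [Finset.mul_sum]
        refine Finset.sum_congr rfl fun j _ => ?_
        rw [setLIntegral_const, Real.volume_Ico, mul_comm]
        congr 2
        ring
    _ ≤ ∑ j : Fin n, ∫⁻ t in Ico ((j : ℕ) * h) ((((j : ℕ) : ℝ) + 1) * h), f t :=
        Finset.sum_le_sum fun j _ => setLIntegral_mono' measurableSet_Ico fun t ht => hf j t ht
    _ = ∫⁻ t in ⋃ j : Fin n, Ico ((j : ℕ) * h) ((((j : ℕ) : ℝ) + 1) * h), f t := by
        rw [lintegral_iUnion (fun _ => measurableSet_Ico) hdis, tsum_fintype]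
    _ ≤ _ := setLIntegral_le_lintegral _ _

/-- bounded overlap -/
theorem overlap {X ι : Type*} [MeasurableSpace X] (μ : Measure X) (s : Finset ι) (B : ι → Set X)
    (hB : ∀ i, MeasurableSet (B i)) (U : Set X) {N : ℝ≥0∞}
    (h : ∀ y, (∑ i ∈ s, (B i).indicator (1 : X → ℝ≥0∞) y) ≤ N) :
    ∑ i ∈ s, μ (U ∩ B i) ≤ N * μ U := by
  have h1 : ∀ i ∈ s, μ (U ∩ B i) = ∫⁻ y in U, (B i).indicator (1 : X → ℝ≥0∞) y ∂μ := by
    intro i _
    rw [lintegral_indicator_one (hB i), Measure.restrict_apply (hB i), inter_comm]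
  rw [Finset.sum_congr rfl h1, ← lintegral_finsetSum _ fun i _ => measurable_one.indicator (hB i)]
  calc ∫⁻ y in U, ∑ i ∈ s, (B i).indicator (1 : X → ℝ≥0∞) y ∂μ ≤ ∫⁻ _ in U, N ∂μ :=
        lintegral_mono fun y => h y
    _ = N * μ U := setLIntegral_const _ _

/-- the number of cells near a point -/
theorem cells_near {G : ℝ} (hG : 0 ≤ G) (I : Finset (Fin d → ℤ)) (B : (Fin d → ℤ) → Set (Fin d → ℝ))
    (y c : Fin d → ℝ) (h : ∀ z ∈ I, y ∈ B z → ∀ i, c i - G - 1 ≤ z i ∧ (z i : ℝ) ≤ c i + G) :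
    (∑ z ∈ I, (B z).indicator (1 : (Fin d → ℝ) → ℝ≥0∞) y) ≤ ENNReal.ofReal ((2 * G + 3) ^ d) := by
  classical
  set J : Finset (Fin d → ℤ) :=
    Fintype.piFinset fun i => Finset.Icc ⌊c i - G - 1⌋ ⌊c i + G⌋ with hJ
  have h1 : ∑ z ∈ I, (B z).indicator (1 : (Fin d → ℝ) → ℝ≥0∞) y =
      ((I.filter fun z => y ∈ B z).card : ℝ≥0∞) := by
    rw [Finset.card_filter]
    push_cast
    refine Finset.sum_congr rfl fun z _ => ?_
    by_cases h : y ∈ B z
    · rw [indicator_of_mem h, if_pos h]; rfl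
    · rw [indicator_of_notMem h, if_neg h]
  have h2 : (I.filter fun z => y ∈ B z) ⊆ J := by
    intro z hz
    rw [Finset.mem_filter] at hz
    rw [hJ, Fintype.mem_piFinset]
    intro i
    obtain ⟨h3, h4⟩ := h z hz.1 hz.2 i
    rw [Finset.mem_Icc]
    exact ⟨(Int.cast_le (R := ℝ)).mp ((Int.floor_le _).trans h3), Int.le_floor.mpr h4⟩
  have h3 : (J.card : ℝ) ≤ (2 * G + 3) ^ d := by
    rw [hJ, Fintype.card_piFinset]
    push_cast
    have h5 : ∏ i : Fin d, ((Finset.Icc ⌊c i - G - 1⌋ ⌊c i + G⌋).card : ℝ) ≤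
        ∏ _i : Fin d, (2 * G + 3 : ℝ) := by
      refine Finset.prod_le_prod (fun _ _ => by positivity) fun i _ => ?_
      refine (card_Icc_floor (by linarith)).trans ?_
      linarith
    rwa [Finset.prod_const, Finset.card_univ, Fintype.card_fin] at h5
  rw [h1, ← ENNReal.ofReal_natCast]
  apply ENNReal.ofReal_le_ofReal
  refine le_trans ?_ h3
  exact_mod_cast Finset.card_le_card h2

theorem zx {R κ2 Ov D S x n h : ℝ} (hn : 0 < n) (hR : 0 < R) (hκ : 0 < κ2) (hOv : 0 < Ov)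
    (hh : h = R / n) (hv : h * (κ2 * D / Ov * S) ≤ x) : S / n * D ≤ Ov / (R * κ2) * x := by
  have h1 : h * (κ2 * D / Ov * S) = (R * κ2 / Ov) * (S / n * D) := by
    rw [hh]
    field_simp
  have h2 : R * κ2 / Ov * (S / n * D) * (Ov / (R * κ2)) = S / n * D := by
    field_simp
  rw [← h2, ← h1, mul_comm (Ov / (R * κ2)) x]
  have h3 : 0 ≤ Ov / (R * κ2) := by positivity
  exact mul_le_mul_of_nonneg_right hv h3

theorem layerD {c' c : ℝ} (hc' : 1 < c') (hcc : c' < c) (hd : 1 ≤ d) (hDG : DenseG d c') :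
    LayerP d c := by
  classical
  intro c1 K C0 κ hc1 hc1' hK hC0 hκ
  have hd0 : (0 : ℝ) < d := by exact_mod_cast hd
  have hc0 : 0 < c' := by linarith
  have hc00 : 0 < c := by linarith
  have hK0 : 0 < K := by linarith
  set R : ℝ := c1⁻¹ with hR
  have hR0 : 0 < R := inv_pos.mpr hc1
  set Λ : ℝ := 4 * K ^ 2 / c1 ^ 2 + 2 with hΛ
  have hΛ2 : 2 ≤ Λ := by
    have : 0 ≤ 4 * K ^ 2 / c1 ^ 2 := by positivity
    linarith
  have hΛ0 : 0 < Λ := by linarith
  set l : ℝ := c1 ^ 2 / (2 * K ^ 2) with hl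
  have hl0 : 0 < l := by positivity
  set ε : ℝ := c' * (d * (1 / c' - 1 / c)) with hε
  have hε0 : 0 < ε := by
    have : 1 / c < 1 / c' := one_div_lt_one_div_of_lt hc0 hcc
    have h2 : 0 < 1 / c' - 1 / c := by linarith
    positivity
  obtain ⟨CD, hCD, hden⟩ := hDG ε hε0
  set CE : ℝ := CD * (1 + Real.log (1 / l)) with hCE
  set G : ℝ := C0 * (Λ + 1) / 2 + 1 / 2 with hG
  have hG0 : 0 < G := by positivity
  set Ov : ℝ := (2 * G + 3) ^ d with hOv
  have hOv0 : 0 < Ov := by positivity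
  set κ2 : ℝ := K⁻¹ ^ d * κ ^ d with hκ2
  have hκ20 : 0 < κ2 := by positivity
  set B : ℝ := Ov / (R * κ2) with hB
  have hB0 : 0 < B := by positivity
  refine ⟨B * (Λ + 1) ^ (ε / c') * Real.exp (CE / c') * 4 ^ ((d : ℝ) * (1 - 1 / c')) *
    c1⁻¹ ^ (d + 2), by positivity, ?_⟩
  intro δ hδ hδ1 ι _ s σ hσ b v Sl T A hA hT hTA hvb hsep hSl htube hlow
  set box : Set (Pt d) := {y | |y.1 - s| ≤ K ∧ ‖y.2 - b‖ ≤ 1 + K + C0} with hbox
  have hboxm : MeasurableSet box := by
    have h1 : IsClosed {y : Pt d | |y.1 - s| ≤ K} :=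
      isClosed_le (f := fun y : Pt d => |y.1 - s|) (g := fun _ => K) (by fun_prop) continuous_const
    have h2 : IsClosed {y : Pt d | ‖y.2 - b‖ ≤ 1 + K + C0} :=
      isClosed_le (f := fun y : Pt d => ‖y.2 - b‖) (g := fun _ => 1 + K + C0) (by fun_prop)
        continuous_const
    exact (h1.inter h2).measurableSet
  set X : Set (Pt d) := A ∩ box with hX
  have hXm : MeasurableSet X := hA.inter hboxm
  have hXfin : volume X ≠ ∞ := by
    refine ne_top_of_le_ne_top ?_ (measure_mono (inter_subset_right : X ⊆ box))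
    have h1 : box ⊆ closedBall (s, b) (1 + K + C0) := by
      rintro y ⟨hy1, hy2⟩
      rw [mem_closedBall, dist_eq_norm, Prod.norm_def]
      refine max_le ?_ hy2
      rw [Prod.fst_sub, Real.norm_eq_abs]
      linarith
    exact ((measure_mono h1).trans_lt measure_closedBall_lt_top).ne
  set A' : Set (Pt d) := pre s σ b c1 K X with hA'
  have hA'm : MeasurableSet A' := pre_meas s σ b c1 K hXm
  have hup : volume A' ≤ ENNReal.ofReal (c1⁻¹ ^ (d + 2)) * volume X := pre_up hσ hc1 hK0 hXm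
  have hA'fin : volume A' ≠ ∞ :=
    ne_top_of_le_ne_top (ENNReal.mul_ne_top ENNReal.ofReal_ne_top hXfin) hup
  set T' : ι → Set (Pt d) := fun i => pre s σ b c1 K (T i) with hT'
  have hT'm : ∀ i, MeasurableSet (T' i) := fun i => pre_meas s σ b c1 K (hT i)
  have hpt := pre_facts (b := b) hσ hc1 hK hC0 hδ hδ1 hvb hSl hTA htube
  rcases isEmpty_or_nonempty ι with hemp | hne
  · rw [Fintype.card_eq_zero, Nat.cast_zero, mul_zero, ENNReal.ofReal_zero]
    exact zero_le
  set N : ℝ := (Fintype.card ι : ℝ) with hN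
  have hN1 : 1 ≤ N := by
    rw [hN]
    exact_mod_cast Fintype.card_pos
  set n : ℕ := ⌈Λ / δ⌉₊ with hn
  have hnl : Λ / δ ≤ n := Nat.le_ceil _
  have hΛδ : Λ ≤ Λ / δ := by
    rw [le_div_iff₀ hδ]
    nlinarith
  have hnu : (n : ℝ) ≤ (Λ + 1) / δ := by
    have h1 : (n : ℝ) < Λ / δ + 1 := Nat.ceil_lt_add_one (by positivity)
    have h2 : 1 ≤ 1 / δ := by
      rw [le_div_iff₀ hδ]
      linarith
    rw [add_div]
    linarith
  have hn0 : (0 : ℝ) < n := by linarith
  have hn1 : 1 ≤ n := by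
    have : (1 : ℝ) ≤ n := by linarith
    exact_mod_cast this
  set h : ℝ := R / n with hh
  have hh0 : 0 < h := by positivity
  set ρ : ℝ := 2 * h with hρ
  have hρ0 : 0 < ρ := by positivity
  set Dd : ι → Fin d → ℝ := fun i k => (v i k - b k + 1) / 2 with hDd
  set Aa : ι → Fin d → ℝ := fun i k => σ * Sl i k / ρ with hAa
  have hvbk : ∀ i k, |v i k - b k| ≤ 1 := by
    intro i k
    have := (norm_le_pi_norm (v i - b) k).trans (hvb i)
    rwa [Real.norm_eq_abs] at this
  have hfam : IsFam n Dd := by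
    refine ⟨hn1, fun i k => ?_, fun i k => ?_, fun i i' hii => ?_⟩
    · have := (abs_le.mp (hvbk i k)).1
      simp only [hDd]
      linarith
    · have := (abs_le.mp (hvbk i k)).2
      simp only [hDd]
      linarith
    · by_contra hne'
      have h1 := hsep i i' hne'
      have h2 : ‖v i - v i'‖ < δ := by
        rw [pi_norm_lt_iff hδ]
        intro k
        have h3 := Int.abs_sub_lt_one_of_floor_eq_floor (hii k)
        simp only [hDd] at h3
        have h4 : (n : ℝ) * ((v i k - b k + 1) / 2) - n * ((v i' k - b k + 1) / 2) =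
            n / 2 * (v i k - v i' k) := by ring
        rw [h4, abs_mul, abs_of_pos (by positivity)] at h3
        have h5 : 1 / δ ≤ n / 2 := by
          have : 2 / δ ≤ Λ / δ := by gcongr
          have h6 : 2 / δ = 2 * (1 / δ) := by ring
          linarith
        have h6 : 1 / δ * |v i k - v i' k| < 1 :=
          lt_of_le_of_lt (by gcongr) h3
        rw [one_div, inv_mul_eq_div, div_lt_one hδ] at h6
        rw [Pi.sub_apply, Real.norm_eq_abs]
        exact h6
      linarith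
  choose α β hα hαβ hβ hsl using hlow
  set E : ι → Finset (Fin n) := fun i =>
    Finset.univ.filter fun j : Fin n => (β i)⁻¹ ≤ (j : ℕ) * h ∧ (((j : ℕ) : ℝ) + 1) * h ≤ (α i)⁻¹
    with hE
  have hEc : ∀ i, l * n ≤ ((E i).card : ℝ) := by
    intro i
    have hα0 : 0 < α i := lt_of_lt_of_le hc1 (hα i)
    have hβ0 : 0 < β i := by linarith [hαβ i]
    refine many_heights hh0 (by positivity) ?_ ?_ (R := R) (by rw [hh]; field_simp)
      (inv_anti₀ hc1 (hα i))
    · have h1 : c1 / K ^ 2 ≤ (α i)⁻¹ - (β i)⁻¹ := by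
        have h2 : (α i)⁻¹ - (β i)⁻¹ = (β i - α i) / (α i * β i) := by
          field_simp
        rw [h2]
        have := hαβ i
        have := hβ i
        apply div_le_div₀ (by linarith) (by linarith) (by positivity)
        nlinarith
      rw [le_div_iff₀ hh0]
      refine le_trans (le_of_eq ?_) h1
      rw [hh, hl, hR]
      field_simp
    · have h1 : l * Λ ≤ l * n := by
        have := hΛδ.trans hnl
        gcongr
      refine le_trans ?_ h1
      have h2 : l * Λ = 2 + 2 * l := by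
        rw [hl, hΛ]
        field_simp
        ring
      rw [h2]
      linarith
  have hlog := hden n ι Aa Dd hfam E l hl0 hEc
  set Im : Fin n → Finset (Fin d → ℤ) := fun j =>
    (Finset.univ.filter fun ω => j ∈ E ω).image (cell Aa Dd j) with hIm
  -- the slices
  have hslice : ∀ (j : Fin n), ∀ t ∈ Ico ((j : ℕ) * h) ((((j : ℕ) : ℝ) + 1) * h),
      ENNReal.ofReal (κ2 * δ ^ d / Ov * (Im j).card) ≤ volume (Prod.mk t ⁻¹' A') := by
    intro j t ht
    have hrep : ∀ z : Fin d → ℤ, ∃ i : ι, z ∈ Im j → (j ∈ E i ∧ cell Aa Dd j i = z) := by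
      intro z
      by_cases hz : z ∈ Im j
      · rw [hIm, Finset.mem_image] at hz
        obtain ⟨i, hi, hiz⟩ := hz
        exact ⟨i, fun _ => ⟨(Finset.mem_filter.mp hi).2, hiz⟩⟩
      · exact ⟨Classical.arbitrary ι, fun h => absurd h hz⟩
    choose rep hrep using hrep
    have h1 : ∀ z ∈ Im j, ENNReal.ofReal (κ2 * δ ^ d) ≤
        volume ((Prod.mk t ⁻¹' A') ∩ (Prod.mk t ⁻¹' T' (rep z))) := by
      intro z hz
      obtain ⟨h2, _⟩ := hrep z hz
      rw [hE, Finset.mem_filter] at h2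
      obtain ⟨_, h3, h4⟩ := h2
      have hα0 : 0 < α (rep z) := lt_of_lt_of_le hc1 (hα _)
      have hβ0 : 0 < β (rep z) := by linarith [hαβ (rep z)]
      have ht1 : (β (rep z))⁻¹ ≤ t := h3.trans ht.1
      have ht2 : t ≤ (α (rep z))⁻¹ := ht.2.le.trans h4
      have ht0 : 0 < t := lt_of_lt_of_le (inv_pos.mpr hβ0) ht1
      have ht3 : K⁻¹ ≤ t := (inv_anti₀ hβ0 (hβ _)).trans ht1
      have ht4 : t ≤ c1⁻¹ := ht2.trans (inv_anti₀ hc1 (hα _))
      have h5 : (Prod.mk t ⁻¹' T' (rep z)) ⊆ (Prod.mk t ⁻¹' A') := fun w hw =>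
        (hpt (rep z) _ hw).1
      rw [inter_eq_self_of_subset_right h5]
      simp only [hT']
      rw [pre_slice s σ b hK0, indicator_of_mem (show t ∈ Icc K⁻¹ c1⁻¹ from ⟨ht3, ht4⟩)]
      have h6 : t⁻¹ ∈ Icc (α (rep z)) (β (rep z)) := by
        constructor
        · have := inv_anti₀ ht0 ht2
          rwa [inv_inv] at this
        · have := inv_anti₀ (inv_pos.mpr hβ0) ht1
          rwa [inv_inv] at this
      have h7 := hsl (rep z) _ h6
      have h8 : κ2 * δ ^ d = K⁻¹ ^ d * (κ * δ) ^ d := by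
        rw [hκ2, mul_pow]
        ring
      rw [h8, ENNReal.ofReal_mul (by positivity)]
      have h9 : ENNReal.ofReal (K⁻¹ ^ d) ≤ ENNReal.ofReal (t ^ d) := by
        apply ENNReal.ofReal_le_ofReal
        gcongr
      exact mul_le_mul' h9 h7
    have h2 : ∑ z ∈ Im j, volume ((Prod.mk t ⁻¹' A') ∩ (Prod.mk t ⁻¹' T' (rep z))) ≤
        ENNReal.ofReal Ov * volume (Prod.mk t ⁻¹' A') := by
      refine overlap volume (Im j) (fun z => Prod.mk t ⁻¹' T' (rep z))
        (fun z => measurable_prodMk_left (hT'm _)) _ fun y => ?_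
      refine cells_near hG0.le (Im j) _ y (fun k => (y k + (j : ℕ) * h) / ρ) fun z hz hy k => ?_
      obtain ⟨_, h3⟩ := hrep z hz
      obtain ⟨_, h4⟩ := hpt (rep z) _ hy
      simp only at h4
      have h5 := (norm_le_pi_norm _ k).trans h4
      rw [Real.norm_eq_abs] at h5
      simp only [Pi.sub_apply, Pi.smul_apply, smul_eq_mul] at h5
      have h6 : z k = ⌊Aa (rep z) k + ((j : ℕ) : ℝ) * Dd (rep z) k⌋ := (congrFun h3 k).symm
      have h7 : Aa (rep z) k + ((j : ℕ) : ℝ) * Dd (rep z) k =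
          (σ * Sl (rep z) k + (j : ℕ) * h * (v (rep z) k - b k) + (j : ℕ) * h) / ρ := by
        simp only [hAa, hDd, hρ]
        field_simp
        ring
      have h8 : |(σ * Sl (rep z) k + (j : ℕ) * h * (v (rep z) k - b k) + (j : ℕ) * h) -
          (y k + (j : ℕ) * h)| ≤ C0 / c1 * δ + h := by
        have h9 : (σ * Sl (rep z) k + (j : ℕ) * h * (v (rep z) k - b k) + (j : ℕ) * h) -
            (y k + (j : ℕ) * h) = -(y k - σ * Sl (rep z) k - t * (v (rep z) k - b k)) -
              (t - (j : ℕ) * h) * (v (rep z) k - b k) := by ring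
        rw [h9]
        refine (abs_sub _ _).trans ?_
        rw [abs_neg, abs_mul]
        have h10 : |t - (j : ℕ) * h| ≤ h := by
          rw [abs_le]
          constructor <;> linarith [ht.1, ht.2]
        have h11 := hvbk (rep z) k
        have h12 : |t - (j : ℕ) * h| * |v (rep z) k - b k| ≤ h * 1 := by gcongr
        linarith
      have h9 : (C0 / c1 * δ + h) / ρ ≤ G := by
        rw [hG, hρ, add_div]
        have h10 : h / (2 * h) = 1 / 2 := by field_simp
        have h11 : C0 / c1 * δ / (2 * h) = C0 * (δ * n) / 2 := by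
          rw [hh, hR]
          field_simp
        rw [h10, h11]
        have h12 : δ * n ≤ Λ + 1 := by
          rw [le_div_iff₀ hδ] at hnu
          linarith
        gcongr
      have h10 : |Aa (rep z) k + ((j : ℕ) : ℝ) * Dd (rep z) k - (y k + (j : ℕ) * h) / ρ| ≤ G := by
        rw [h7, ← sub_div, abs_div, abs_of_pos hρ0]
        exact (div_le_div_of_nonneg_right h8 hρ0.le).trans h9
      rw [abs_le] at h10
      have h11 := Int.floor_le (Aa (rep z) k + ((j : ℕ) : ℝ) * Dd (rep z) k)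
      have h12 := Int.lt_floor_add_one (Aa (rep z) k + ((j : ℕ) : ℝ) * Dd (rep z) k)
      rw [← h6] at h11 h12
      constructor <;> linarith [h10.1, h10.2]
    have h3 : ENNReal.ofReal (κ2 * δ ^ d * (Im j).card) ≤
        ENNReal.ofReal Ov * volume (Prod.mk t ⁻¹' A') := by
      refine le_trans ?_ h2
      rw [mul_comm, ENNReal.ofReal_mul (by positivity), ENNReal.ofReal_natCast, ← nsmul_eq_mul,
        ← Finset.sum_const]
      exact Finset.sum_le_sum h1
    have h4 : κ2 * δ ^ d / Ov * (Im j).card = Ov⁻¹ * (κ2 * δ ^ d * (Im j).card) := by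
      rw [div_eq_mul_inv]
      ring
    rw [h4, ENNReal.ofReal_mul (by positivity), ENNReal.ofReal_inv_of_pos hOv0]
    refine (mul_le_mul_right h3 _).trans ?_
    rw [← mul_assoc, ENNReal.inv_mul_cancel (by rw [ne_eq, ENNReal.ofReal_eq_zero]; linarith)
      ENNReal.ofReal_ne_top, one_mul]
  have hvol : ENNReal.ofReal (h * ∑ j, (κ2 * δ ^ d / Ov * (Im j).card)) ≤ volume A' := by
    rw [ENNReal.ofReal_mul hh0.le, ENNReal.ofReal_sum_of_nonneg fun _ _ => by positivity]
    rw [Measure.volume_eq_prod, Measure.prod_apply hA'm]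
    exact sum_steps hh0 n hslice
  set x : ℝ := (volume A').toReal with hx
  have hx0 : 0 ≤ x := ENNReal.toReal_nonneg
  have hxe : volume A' = ENNReal.ofReal x := (ENNReal.ofReal_toReal hA'fin).symm
  rw [hxe, ENNReal.ofReal_le_ofReal_iff hx0] at hvol
  set Z : ℝ := (∑ j : Fin n, ((Im j).card : ℝ)) / n with hZ
  have hZpos : 0 < Z := by
    obtain ⟨i⟩ := hne
    have h1 : 0 < (E i).card := by
      have h2 := hEc i
      have h3 : 0 < l * n := by positivity
      have h4 : (0 : ℝ) < (E i).card := by linarith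
      exact_mod_cast h4
    obtain ⟨j, hj⟩ := Finset.card_pos.mp h1
    have h2 : 0 < ((Im j).card : ℝ) := by
      have : cell Aa Dd j i ∈ Im j := by
        rw [hIm, Finset.mem_image]
        exact ⟨i, Finset.mem_filter.mpr ⟨Finset.mem_univ _, hj⟩, rfl⟩
      have h3 := Finset.card_pos.mpr ⟨_, this⟩
      exact_mod_cast h3
    have h3 : ((Im j).card : ℝ) ≤ ∑ j : Fin n, ((Im j).card : ℝ) :=
      Finset.single_le_sum (f := fun j : Fin n => ((Im j).card : ℝ))
        (fun _ _ => Nat.cast_nonneg _) (Finset.mem_univ j)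
    exact div_pos (lt_of_lt_of_le h2 h3) hn0
  have hZx : Z * δ ^ d ≤ B * x := by
    rw [← Finset.mul_sum] at hvol
    exact zx hn0 hR0 hκ20 hOv0 hh hvol
  have hcard : N ≤ (4 / δ) ^ d := by
    have h1 := card_ball hδ zero_le_one hsep b Finset.univ (fun j _ => hvb j)
    rw [Finset.card_univ] at h1
    refine h1.trans ?_
    gcongr
    rw [mul_one, div_add' _ _ _ hδ.ne']
    gcongr
    linarith
  have hfin := numerD (d := d) (CE := CE) hc' hcc hε (by linarith : 0 < Λ + 1) hδ hN1 hZpos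
    (by exact_mod_cast hn1) hnu hcard hZx hlog
  set CC : ℝ := B * (Λ + 1) ^ (ε / c') * Real.exp (CE / c') * 4 ^ ((d : ℝ) * (1 - 1 / c')) with hCC
  have hCC0 : 0 < CC := by positivity
  calc ENNReal.ofReal (δ ^ d * N)
      ≤ ENNReal.ofReal (CC * δ ^ (-((d : ℝ) * (1 - 1 / c))) * x) := ENNReal.ofReal_le_ofReal hfin
    _ = ENNReal.ofReal (CC * δ ^ (-((d : ℝ) * (1 - 1 / c)))) * volume A' := by
        rw [ENNReal.ofReal_mul (by positivity), hxe]
    _ ≤ ENNReal.ofReal (CC * δ ^ (-((d : ℝ) * (1 - 1 / c)))) *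
          (ENNReal.ofReal (c1⁻¹ ^ (d + 2)) * volume X) := by gcongr
    _ = _ := by
        rw [← mul_assoc, ← ENNReal.ofReal_mul (by positivity)]
        congr 2
        ring

end Pool.Agent.Y893.TD
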