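import Pool.Agent.Y893.TD.Geo
import Pool.Agent.Y893.TD.LayerD

/-!
# Tube doubling from the Kakeya tube inequality: summation over the classes
-/

set_option autoImplicit false

open MeasureTheory Set Metric
open scoped ENNReal NNReal

namespace Pool.Agent.Y893.TD
open Pool.Agent.Y254.EL
open Pool.Agent.W46.KK (eqvj eqvj_mp)

variable {d : ℕ}

/-- the union of the tubes -/
def UU (δ : ℝ) (S : Set (E d × E d)) : Set (E d) := ⋃ p ∈ S, T1 δ p

theorem UU_open (δ : ℝ) (S : Set (E d × E d)) : IsOpen (UU δ S) :=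
  isOpen_biUnion fun _ _ => T1_open _ _

theorem class_est {c : ℝ} (H : LayerP d c) :
    ∃ C : ℝ, 0 < C ∧ ∀ δ : ℝ, 0 < δ → δ < 1 → ∀ S : Set (E d × E d), (∀ p ∈ S, ‖p.2‖ = 1) →
      ∀ (k : Fin (d + 1)) (σ : ℝ), (σ = 1 ∨ σ = -1) → ∀ (j : ℤ) (z : Fin (d + 1) → ℤ)
      (M : Finset (Fin (d + 1) → ℤ)),
      (∀ m ∈ M, Good δ S k σ m ∧ m k = j ∧ ∀ i, ⌊δ * m i⌋ = z i) →
      ENNReal.ofReal (δ ^ d * M.card) ≤
        ENNReal.ofReal (C * δ ^ (-((d : ℝ) * (1 - 1 / c)))) * volume (UU δ S ∩ Bx z) := by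
  have hd1 : (1 : ℝ) ≤ (d : ℝ) + 1 := by
    have : (0 : ℝ) ≤ d := Nat.cast_nonneg _
    linarith
  have hc1 : 0 < 1 / (8 * ((d : ℝ) + 1)) := by positivity
  have hc1' : 1 / (8 * ((d : ℝ) + 1)) ≤ 1 := by
    rw [div_le_one (by positivity)]
    linarith
  obtain ⟨C, hC, h⟩ := H _ 5 8 (2 / ((d : ℝ) + 1)) hc1 hc1' (by norm_num) (by norm_num)
    (by positivity)
  refine ⟨C, hC, ?_⟩
  intro δ hδ hδ1 S hS k σ hσ j z M hM
  rcases M.eq_empty_or_nonempty with h0 | ⟨m0, hm0⟩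
  · rw [h0, Finset.card_empty, Nat.cast_zero, mul_zero, ENNReal.ofReal_zero]
    exact zero_le
  have hch : ∀ m : M, ∃ p ∈ S, ∃ x ∈ T2 δ p, (∀ i, ⌊x i / δ⌋ = (m : Fin (d + 1) → ℤ) i) ∧
      (∀ i, |p.2 i| ≤ |p.2 k|) ∧ 0 ≤ σ * (p.1 k - δ * (m : Fin (d + 1) → ℤ) k) :=
    fun m => (hM m m.2).1
  choose p hp x hx hm hk hs using hch
  have hfac := fun m : M => tube_facts hδ hδ1 hσ (hS _ (hp m)) (hx m) (hm m) (hk m) (hs m)
  choose D hD htube hlow using hfac
  have hmk : ∀ m : M, (m : Fin (d + 1) → ℤ) k = j := fun m => (hM m m.2).2.1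
  have hz : ∀ (m : M) (i : Fin (d + 1)), |δ * ((m : Fin (d + 1) → ℤ) i : ℝ) - z i| ≤ 1 := by
    intro m i
    have h1 := (hM m m.2).2.2 i
    have h2 := Int.floor_le (δ * ((m : Fin (d + 1) → ℤ) i : ℝ))
    have h3 := Int.lt_floor_add_one (δ * ((m : Fin (d + 1) → ℤ) i : ℝ))
    rw [h1] at h2 h3
    rw [abs_le]
    constructor <;> linarith
  have key := h δ hδ hδ1 (ι := M) (δ * j) σ hσ (fun i => (z (k.succAbove i) : ℝ))
    (fun m i => δ * ((m : Fin (d + 1) → ℤ) (k.succAbove i) : ℝ)) D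
    (fun m => (eqvj d k).symm ⁻¹' (T1 δ (p m))) ((eqvj d k).symm ⁻¹' (UU δ S))
    ((eqvj d k).symm.measurable (UU_open δ S).measurableSet)
    (fun m => (eqvj d k).symm.measurable (T1_open δ (p m)).measurableSet)
    (fun m => preimage_mono (subset_biUnion_of_mem (u := fun p => T1 δ p) (hp m)))
    ?_ ?_ hD ?_ ?_
  · rw [Fintype.card_coe] at key
    refine key.trans ?_
    gcongr
    have h1 : (eqvj d k).symm ⁻¹' (UU δ S) ∩ {y | |y.1 - δ * (j : ℝ)| ≤ 5 ∧
        ‖y.2 - fun i => (z (k.succAbove i) : ℝ)‖ ≤ 1 + 5 + 8} ⊆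
        (eqvj d k).symm ⁻¹' (UU δ S ∩ {y | ∀ i, i ≠ k → |y i - z i| ≤ 14} ∩
          {y | |y k - δ * (j : ℝ)| ≤ 5}) := by
      rintro y ⟨hy1, hy2, hy3⟩
      set Y : E d := (eqvj d k).symm y with hY
      have hyY : y = eqvj d k Y := ((eqvj d k).apply_symm_apply y).symm
      refine ⟨⟨hy1, ?_⟩, ?_⟩
      · intro i hi
        obtain ⟨i', rfl⟩ := Fin.exists_succAbove_eq hi
        have h2 := (norm_le_pi_norm _ i').trans hy3
        rw [Real.norm_eq_abs, Pi.sub_apply] at h2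
        have h3 : y.2 i' = Y (k.succAbove i') := by rw [hyY]; rfl
        rw [h3] at h2
        change |Y (k.succAbove i') - _| ≤ _
        linarith
      · have h3 : y.1 = Y k := by rw [hyY]; rfl
        rw [h3] at hy2
        exact hy2
    refine (measure_mono h1).trans ?_
    rw [(eqvj_mp d k).symm.measure_preimage_equiv]
    apply measure_mono
    rintro y ⟨⟨hy1, hy2⟩, hy3⟩
    refine ⟨hy1, fun i => ?_⟩
    by_cases hi : i = k
    · subst hi
      have h4 := hz ⟨m0, hm0⟩ i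
      have h5 := hmk ⟨m0, hm0⟩
      simp only at h4 h5
      rw [h5] at h4
      have hy3' : |y i - δ * (j : ℝ)| ≤ 5 := hy3
      rw [abs_le] at *
      constructor <;> linarith [h4.1, h4.2, hy3'.1, hy3'.2]
    · exact hy2 i hi
  · intro m
    rw [pi_norm_le_iff_of_nonneg zero_le_one]
    intro i
    rw [Real.norm_eq_abs, Pi.sub_apply]
    exact hz m _
  · intro m m' hmm
    obtain ⟨i, hi⟩ : ∃ i : Fin d, (m : Fin (d + 1) → ℤ) (k.succAbove i) ≠
        (m' : Fin (d + 1) → ℤ) (k.succAbove i) := by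
      by_contra hcon
      push Not at hcon
      apply hmm
      apply Subtype.ext
      funext i
      by_cases hi : i = k
      · rw [hi, hmk m, hmk m']
      · obtain ⟨i', rfl⟩ := Fin.exists_succAbove_eq hi
        exact hcon i'
    have h2 := norm_le_pi_norm ((fun i => δ * ((m : Fin (d + 1) → ℤ) (k.succAbove i) : ℝ)) -
      fun i => δ * ((m' : Fin (d + 1) → ℤ) (k.succAbove i) : ℝ)) i
    refine le_trans ?_ h2
    rw [Real.norm_eq_abs, Pi.sub_apply, ← mul_sub, abs_mul, abs_of_pos hδ]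
    have h3 : (1 : ℝ) ≤ |((m : Fin (d + 1) → ℤ) (k.succAbove i) : ℝ) -
        ((m' : Fin (d + 1) → ℤ) (k.succAbove i) : ℝ)| := by
      have h4 : 1 ≤ |(m : Fin (d + 1) → ℤ) (k.succAbove i) -
          (m' : Fin (d + 1) → ℤ) (k.succAbove i)| := Int.one_le_abs (sub_ne_zero.mpr hi)
      exact_mod_cast h4
    nlinarith
  · intro m y hy
    have h2 := htube m y hy
    rw [hmk m] at h2
    exact h2
  · intro m
    obtain ⟨α, β, h2, h3, h4, h5⟩ := hlow m
    rw [hmk m] at h5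
    exact ⟨α, β, h2, h3, h4, h5⟩

/-- number of classes near a point -/
theorem classes_near {δ : ℝ} (hδ : 0 < δ) (hδ1 : δ < 1) (k : Fin (d + 1))
    (I : Finset (ℤ × (Fin (d + 1) → ℤ))) (hI : ∀ x ∈ I, |δ * (x.1 : ℝ) - x.2 k| ≤ 1) (y : E d) :
    (∑ x ∈ I, (Bx x.2).indicator (1 : E d → ℝ≥0∞) y) ≤
      ENNReal.ofReal (32 / δ * 30 ^ (d + 1)) := by
  classical
  set J : Finset (ℤ × (Fin (d + 1) → ℤ)) := (Finset.Icc ⌊(y k - 15) / δ⌋ ⌊(y k + 15) / δ⌋) ×ˢ
    (Fintype.piFinset fun i => Finset.Icc ⌊y i - 14⌋ ⌊y i + 14⌋) with hJ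
  have h1 : ∑ x ∈ I, (Bx x.2).indicator (1 : E d → ℝ≥0∞) y =
      ((I.filter fun x => y ∈ Bx x.2).card : ℝ≥0∞) := by
    rw [Finset.card_filter]
    push_cast
    refine Finset.sum_congr rfl fun x _ => ?_
    by_cases h : y ∈ Bx x.2
    · rw [indicator_of_mem h, if_pos h]; rfl
    · rw [indicator_of_notMem h, if_neg h]
  have h2 : (I.filter fun x => y ∈ Bx x.2) ⊆ J := by
    intro x hx
    rw [Finset.mem_filter] at hx
    obtain ⟨hx1, hx2⟩ := hx
    have h3 := abs_le.mp (hI x hx1)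
    have h4 := abs_le.mp (hx2 k)
    rw [hJ, Finset.mem_product, Finset.mem_Icc, Fintype.mem_piFinset]
    refine ⟨⟨?_, ?_⟩, fun i => ?_⟩
    · have h5 : (y k - 15) / δ ≤ x.1 := by
        rw [div_le_iff₀ hδ]
        linarith
      exact (Int.cast_le (R := ℝ)).mp ((Int.floor_le _).trans h5)
    · rw [Int.le_floor, le_div_iff₀ hδ]
      linarith
    · rw [Finset.mem_Icc]
      have h5 := abs_le.mp (hx2 i)
      constructor
      · have h6 : y i - 14 ≤ x.2 i := by linarith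
        exact (Int.cast_le (R := ℝ)).mp ((Int.floor_le _).trans h6)
      · rw [Int.le_floor]
        linarith
  have h3 : (J.card : ℝ) ≤ 32 / δ * 30 ^ (d + 1) := by
    rw [hJ, Finset.card_product, Fintype.card_piFinset]
    push_cast
    have h4 : ((Finset.Icc ⌊(y k - 15) / δ⌋ ⌊(y k + 15) / δ⌋).card : ℝ) ≤ 32 / δ := by
      refine (card_Icc_floor (by gcongr; linarith)).trans ?_
      rw [← sub_div, div_add' _ _ _ hδ.ne']
      gcongr
      linarith
    have h5 : ∏ i : Fin (d + 1), ((Finset.Icc ⌊y i - 14⌋ ⌊y i + 14⌋).card : ℝ) ≤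
        ∏ _i : Fin (d + 1), (30 : ℝ) := by
      refine Finset.prod_le_prod (fun _ _ => by positivity) fun i _ => ?_
      refine (card_Icc_floor (by linarith)).trans ?_
      linarith
    rw [Finset.prod_const, Finset.card_univ, Fintype.card_fin] at h5
    gcongr
  rw [h1, ← ENNReal.ofReal_natCast]
  apply ENNReal.ofReal_le_ofReal
  refine le_trans ?_ h3
  exact_mod_cast Finset.card_le_card h2

/-- all cells with a given main direction and sign -/
theorem dir_est {c : ℝ} (H : LayerP d c) :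
    ∃ C : ℝ, 0 < C ∧ ∀ δ : ℝ, 0 < δ → δ < 1 → ∀ S : Set (E d × E d), (∀ p ∈ S, ‖p.2‖ = 1) →
      ∀ (k : Fin (d + 1)) (σ : ℝ), (σ = 1 ∨ σ = -1) → ∀ (M : Finset (Fin (d + 1) → ℤ)),
      (∀ m ∈ M, Good δ S k σ m) →
      ENNReal.ofReal (δ ^ (d + 1) * M.card) ≤
        ENNReal.ofReal (C * δ ^ (-((d : ℝ) * (1 - 1 / c)))) * volume (UU δ S) := by
  classical
  obtain ⟨C, hC, h⟩ := class_est H
  refine ⟨C * (32 * 30 ^ (d + 1)), by positivity, ?_⟩
  intro δ hδ hδ1 S hS k σ hσ M hM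
  set cls : (Fin (d + 1) → ℤ) → ℤ × (Fin (d + 1) → ℤ) := fun m => (m k, fun i => ⌊δ * m i⌋) with hcls
  have h1 := Finset.card_eq_sum_card_image cls M
  set Cd : ℝ≥0∞ := ENNReal.ofReal (C * δ ^ (-((d : ℝ) * (1 - 1 / c)))) with hCd
  have h2 : ENNReal.ofReal (δ ^ (d + 1) * M.card) =
      ENNReal.ofReal δ * ∑ x ∈ M.image cls,
        ENNReal.ofReal (δ ^ d * ((M.filter fun m => cls m = x).card : ℝ)) := by
    rw [← ENNReal.ofReal_sum_of_nonneg fun _ _ => by positivity, ← ENNReal.ofReal_mul hδ.le,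
      ← Finset.mul_sum, h1]
    congr 1
    push_cast
    ring
  rw [h2]
  have h3 : ∀ x ∈ M.image cls, ENNReal.ofReal (δ ^ d * ((M.filter fun m => cls m = x).card : ℝ)) ≤
      Cd * volume (UU δ S ∩ Bx x.2) := by
    intro x _
    refine h δ hδ hδ1 S hS k σ hσ x.1 x.2 _ fun m hm => ?_
    rw [Finset.mem_filter] at hm
    obtain ⟨hm1, hm2⟩ := hm
    refine ⟨hM m hm1, ?_, fun i => ?_⟩
    · rw [← hm2]
    · rw [← hm2]
  have h4 := overlap (volume : Measure (E d)) (M.image cls) (fun x => Bx x.2)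
    (fun x => Bx_meas x.2) (UU δ S) (classes_near hδ hδ1 k (M.image cls) (by
      intro x hx
      rw [Finset.mem_image] at hx
      obtain ⟨m, _, rfl⟩ := hx
      simp only [hcls]
      have h2 := Int.floor_le (δ * (m k : ℝ))
      have h3 := Int.lt_floor_add_one (δ * (m k : ℝ))
      rw [abs_le]
      constructor <;> linarith))
  calc ENNReal.ofReal δ * ∑ x ∈ M.image cls,
        ENNReal.ofReal (δ ^ d * ((M.filter fun m => cls m = x).card : ℝ))
      ≤ ENNReal.ofReal δ * ∑ x ∈ M.image cls, Cd * volume (UU δ S ∩ Bx x.2) := by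
        gcongr with x hx
        exact h3 x hx
    _ = ENNReal.ofReal δ * Cd * ∑ x ∈ M.image cls, volume (UU δ S ∩ Bx x.2) := by
        rw [← Finset.mul_sum, mul_assoc]
    _ ≤ ENNReal.ofReal δ * Cd * (ENNReal.ofReal (32 / δ * 30 ^ (d + 1)) * volume (UU δ S)) := by
        gcongr
    _ = _ := by
        rw [← mul_assoc, hCd, ← ENNReal.ofReal_mul hδ.le, ← ENNReal.ofReal_mul (by positivity)]
        congr 2
        field_simp

/-- all cells -/
theorem cell_est {c : ℝ} (H : LayerP d c) :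
    ∃ C : ℝ, 0 < C ∧ ∀ δ : ℝ, 0 < δ → δ < 1 → ∀ S : Set (E d × E d), (∀ p ∈ S, ‖p.2‖ = 1) →
      ∀ (M : Finset (Fin (d + 1) → ℤ)),
      (∀ m ∈ M, ∃ p ∈ S, ∃ x ∈ T2 δ p, ∀ i, ⌊x i / δ⌋ = m i) →
      ENNReal.ofReal (δ ^ (d + 1) * M.card) ≤
        ENNReal.ofReal (C * δ ^ (-((d : ℝ) * (1 - 1 / c)))) * volume (UU δ S) := by
  classical
  obtain ⟨C, hC, h⟩ := dir_est H
  refine ⟨(2 * ((d : ℝ) + 1)) * C, by positivity, ?_⟩
  intro δ hδ hδ1 S hS M hM
  set I : Finset (Fin (d + 1) × Bool) := Finset.univ with hI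
  set sg : Bool → ℝ := fun b => if b then 1 else -1 with hsg
  have hsg' : ∀ b, sg b = 1 ∨ sg b = -1 := by
    intro b
    cases b <;> simp [hsg]
  have h1 : M ⊆ I.biUnion fun x => M.filter fun m => Good δ S x.1 (sg x.2) m := by
    intro m hm
    obtain ⟨p, hp, x, hx, hmx⟩ := hM m hm
    obtain ⟨k, hk⟩ := Finite.exists_max (fun i => |p.2 i|)
    rw [Finset.mem_biUnion]
    rcases le_total 0 (p.1 k - δ * m k) with h0 | h0
    · refine ⟨(k, true), Finset.mem_univ _, ?_⟩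
      rw [Finset.mem_filter]
      refine ⟨hm, p, hp, x, hx, hmx, hk, ?_⟩
      simp only [hsg, if_true, one_mul]
      exact h0
    · refine ⟨(k, false), Finset.mem_univ _, ?_⟩
      rw [Finset.mem_filter]
      refine ⟨hm, p, hp, x, hx, hmx, hk, ?_⟩
      simp only [hsg]
      rw [if_neg (by simp)]
      linarith
  have h2 : (M.card : ℝ) ≤ ∑ x ∈ I, ((M.filter fun m => Good δ S x.1 (sg x.2) m).card : ℝ) := by
    exact_mod_cast (Finset.card_le_card h1).trans Finset.card_biUnion_le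
  calc ENNReal.ofReal (δ ^ (d + 1) * M.card)
      ≤ ENNReal.ofReal (∑ x ∈ I,
          δ ^ (d + 1) * ((M.filter fun m => Good δ S x.1 (sg x.2) m).card : ℝ)) := by
        apply ENNReal.ofReal_le_ofReal
        rw [← Finset.mul_sum]
        gcongr
    _ = ∑ x ∈ I, ENNReal.ofReal
          (δ ^ (d + 1) * ((M.filter fun m => Good δ S x.1 (sg x.2) m).card : ℝ)) :=
        ENNReal.ofReal_sum_of_nonneg fun _ _ => by positivity
    _ ≤ ∑ _x ∈ I, ENNReal.ofReal (C * δ ^ (-((d : ℝ) * (1 - 1 / c)))) * volume (UU δ S) := by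
        refine Finset.sum_le_sum fun x _ => ?_
        refine h δ hδ hδ1 S hS x.1 (sg x.2) (hsg' _) _ fun m hm => ?_
        exact (Finset.mem_filter.mp hm).2
    _ = _ := by
        rw [Finset.sum_const, hI, Finset.card_univ, Fintype.card_prod, Fintype.card_fin,
          Fintype.card_bool, nsmul_eq_mul, ← mul_assoc, ← ENNReal.ofReal_natCast,
          ← ENNReal.ofReal_mul (by positivity)]
        congr 2
        push_cast
        ring

/-- a cell -/
def cell (δ : ℝ) (m : Fin (d + 1) → ℤ) : Set (E d) := {x | ∀ i, ⌊x i / δ⌋ = m i}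

theorem vol_cell {δ : ℝ} (hδ : 0 < δ) (m : Fin (d + 1) → ℤ) :
    volume (cell δ m) ≤ ENNReal.ofReal (δ ^ (d + 1)) := by
  have h1 : cell δ m ⊆ (MeasurableEquiv.toLp 2 (Fin (d + 1) → ℝ)).symm ⁻¹'
      (Set.pi univ fun i => Ico (δ * m i) (δ * (m i + 1))) := by
    intro x hx i _
    have h2 : x i / δ < m i + 1 := by rw [← hx i]; exact Int.lt_floor_add_one _
    have h3 : (m i : ℝ) ≤ x i / δ := by rw [← hx i]; exact Int.floor_le _
    rw [le_div_iff₀ hδ] at h3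
    rw [div_lt_iff₀ hδ] at h2
    exact ⟨by change δ * m i ≤ x i; linarith, by change x i < δ * (m i + 1); linarith⟩
  refine (measure_mono h1).trans ?_
  rw [(EuclideanSpace.volume_preserving_symm_measurableEquiv_toLp
    (Fin (d + 1))).measure_preimage_equiv, Real.volume_pi_Ico]
  have h2 : ∀ i : Fin (d + 1), ENNReal.ofReal (δ * (m i + 1) - δ * m i) = ENNReal.ofReal δ := by
    intro i
    congr 1
    ring
  simp only [h2]
  rw [Finset.prod_const, Finset.card_univ, Fintype.card_fin, ENNReal.ofReal_pow hδ.le]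

/-- Tube doubling for all sets of tubes. -/
theorem doubling {c : ℝ} (H : LayerP d c) :
    ∃ C : ℝ, 0 < C ∧ ∀ δ : ℝ, 0 < δ → δ < 1 → ∀ S : Set (E d × E d), (∀ p ∈ S, ‖p.2‖ = 1) →
      volume (⋃ p ∈ S, T2 δ p) ≤
        ENNReal.ofReal (C * δ ^ (-((d : ℝ) * (1 - 1 / c)))) * volume (⋃ p ∈ S, T1 δ p) := by
  classical
  obtain ⟨C, hC, h⟩ := cell_est H
  refine ⟨C, hC, ?_⟩
  intro δ hδ hδ1 S hS
  set G : Set (Fin (d + 1) → ℤ) := {m | ∃ p ∈ S, ∃ x ∈ T2 δ p, ∀ i, ⌊x i / δ⌋ = m i} with hG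
  have h1 : (⋃ p ∈ S, T2 δ p) ⊆ ⋃ m : G, cell δ (m : Fin (d + 1) → ℤ) := by
    intro x hx
    rw [mem_iUnion₂] at hx
    obtain ⟨p, hp, hx⟩ := hx
    rw [mem_iUnion]
    exact ⟨⟨fun i => ⌊x i / δ⌋, p, hp, x, hx, fun i => rfl⟩, fun i => rfl⟩
  calc volume (⋃ p ∈ S, T2 δ p) ≤ volume (⋃ m : G, cell δ (m : Fin (d + 1) → ℤ)) := measure_mono h1
    _ ≤ ∑' m : G, volume (cell δ (m : Fin (d + 1) → ℤ)) := measure_iUnion_le _
    _ ≤ ∑' _m : G, ENNReal.ofReal (δ ^ (d + 1)) := ENNReal.tsum_le_tsum fun m => vol_cell hδ _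
    _ ≤ _ := by
        rw [ENNReal.tsum_eq_iSup_sum]
        refine iSup_le fun s => ?_
        rw [Finset.sum_const, nsmul_eq_mul, ← ENNReal.ofReal_natCast,
          ← ENNReal.ofReal_mul (by positivity), mul_comm]
        have h2 := h δ hδ hδ1 S hS (s.image Subtype.val) (by
          intro m hm
          rw [Finset.mem_image] at hm
          obtain ⟨m', _, rfl⟩ := hm
          exact m'.2)
        rw [Finset.card_image_of_injective _ Subtype.val_injective] at h2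
        exact h2

end Pool.Agent.Y893.TD
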